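import Pool.Agent.Helper234.BrownDefs

/-!
# Unitaries with prescribed norms of commutators in the hyperfinite II₁ factor
-/

set_option autoImplicit false

namespace Pool.Agent.K7.H48.UF

open Pool.Agent.Helper234.Brown Filter Matrix
open scoped Topology

variable {R : Type} [CStarAlgebra R]

section

variable (j : ℕ → (Matrix (Fin 2) (Fin 2) ℂ →⋆ₐ[ℂ] R))

/-- a product of images of matrices -/
noncomputable def PP : ℕ → (ℕ → Matrix (Fin 2) (Fin 2) ℂ) → R
  | 0, _ => 1
  | N + 1, f => PP N f * j N (f N)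

variable (hj : ∀ k l, k ≠ l → ∀ x y, j k x * j l y = j l y * j k x)

include hj in
theorem PP_comm (k : ℕ) (x : Matrix (Fin 2) (Fin 2) ℂ) (N : ℕ) (hk : N ≤ k)
    (f : ℕ → Matrix (Fin 2) (Fin 2) ℂ) : j k x * PP j N f = PP j N f * j k x := by
  induction N with
  | zero => simp [PP]
  | succ N ih =>
    simp only [PP]
    rw [← mul_assoc, ih (by omega), mul_assoc, hj k N (by omega), ← mul_assoc]

include hj in
theorem PP_mul (N : ℕ) (f g : ℕ → Matrix (Fin 2) (Fin 2) ℂ) :
    PP j N f * PP j N g = PP j N fun z => f z * g z := by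
  induction N with
  | zero => simp [PP]
  | succ N ih =>
    simp only [PP]
    rw [← ih, map_mul]
    calc PP j N f * (j N) (f N) * (PP j N g * (j N) (g N))
        = PP j N f * ((j N) (f N) * PP j N g) * (j N) (g N) := by simp only [mul_assoc]
      _ = PP j N f * (PP j N g * (j N) (f N)) * (j N) (g N) := by
          rw [PP_comm j hj N (f N) N le_rfl g]
      _ = PP j N f * PP j N g * ((j N) (f N) * (j N) (g N)) := by simp only [mul_assoc]

theorem PP_one (N : ℕ) : PP j N (fun _ => 1) = 1 := by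
  induction N with
  | zero => simp [PP]
  | succ N ih => simp [PP, ih]

theorem PP_congr {N : ℕ} {f g : ℕ → Matrix (Fin 2) (Fin 2) ℂ} (h : ∀ z < N, f z = g z) :
    PP j N f = PP j N g := by
  induction N with
  | zero => rfl
  | succ N ih =>
    simp only [PP]
    rw [ih fun z hz => h z (by omega), h N (by omega)]

include hj in
theorem PP_star (N : ℕ) (f : ℕ → Matrix (Fin 2) (Fin 2) ℂ) :
    star (PP j N f) = PP j N fun z => star (f z) := by
  induction N with
  | zero => simp [PP]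
  | succ N ih =>
    simp only [PP]
    rw [star_mul, ih, ← map_star, PP_comm j hj N _ N le_rfl]

theorem PP_ext {N M : ℕ} (hNM : N ≤ M) {f : ℕ → Matrix (Fin 2) (Fin 2) ℂ}
    (h : ∀ z, N ≤ z → f z = 1) : PP j M f = PP j N f := by
  induction hNM with
  | refl => rfl
  | @step M hM ih =>
    simp only [PP]
    rw [ih, h M hM, map_one, mul_one]

theorem PP_single {N b : ℕ} (hb : b < N) (x : Matrix (Fin 2) (Fin 2) ℂ) :
    PP j N (fun z => if z = b then x else 1) = j b x := by
  have h1 : PP j N (fun z => if z = b then x else 1) =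
      PP j (b + 1) (fun z => if z = b then x else 1) :=
    PP_ext j hb fun z hz => if_neg (by omega)
  rw [h1]
  simp only [PP]
  rw [PP_congr j (g := fun _ => 1) fun z hz => if_neg (by omega), PP_one]
  simp

include hj in
theorem PP_unitary (N : ℕ) (f : ℕ → Matrix (Fin 2) (Fin 2) ℂ)
    (h : ∀ z, star (f z) * f z = 1 ∧ f z * star (f z) = 1) :
    star (PP j N f) * PP j N f = 1 ∧ PP j N f * star (PP j N f) = 1 := by
  rw [PP_star j hj, PP_mul j hj, PP_mul j hj]
  constructor
  · rw [PP_congr j (g := fun _ => 1) fun z _ => (h z).1, PP_one]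
  · rw [PP_congr j (g := fun _ => 1) fun z _ => (h z).2, PP_one]

end

/-- the flip -/
def mX : Matrix (Fin 2) (Fin 2) ℂ := !![0, 1; 1, 0]

/-- a diagonal matrix -/
def mD (ζ : ℂ) : Matrix (Fin 2) (Fin 2) ℂ := !![1, 0; 0, ζ]

/-- a skew matrix -/
def mY : Matrix (Fin 2) (Fin 2) ℂ := !![0, 1; -1, 0]

theorem mX_unitary : star mX * mX = 1 ∧ mX * star mX = 1 := by
  constructor <;>
  · ext a b
    fin_cases a <;> fin_cases b <;> simp [mX, Matrix.mul_apply, Matrix.star_apply]

theorem mY_unitary : star mY * mY = 1 := by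
  ext a b
  fin_cases a <;> fin_cases b <;> simp [mY, Matrix.mul_apply, Matrix.star_apply]

theorem mD_unitary {ζ : ℂ} (h : ‖ζ‖ = 1) : star (mD ζ) * mD ζ = 1 ∧ mD ζ * star (mD ζ) = 1 := by
  have h1 : (starRingEnd ℂ) ζ * ζ = 1 := by
    rw [mul_comm, Complex.mul_conj, Complex.normSq_eq_norm_sq, h]
    simp
  have h2 : ζ * (starRingEnd ℂ) ζ = 1 := by rw [mul_comm, h1]
  constructor <;>
  · ext a b
    fin_cases a <;> fin_cases b <;> simp [mD, Matrix.mul_apply, Matrix.star_apply, h1, h2]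

theorem mD_comm (ζ ζ' : ℂ) : mD ζ * mD ζ' = mD ζ' * mD ζ := by
  ext a b
  fin_cases a <;> fin_cases b <;> simp [mD, Matrix.mul_apply, mul_comm]

theorem mDX (ζ : ℂ) : mD ζ * mX - mX * mD ζ = (1 - ζ) • mY := by
  ext a b
  fin_cases a <;> fin_cases b <;> simp [mD, mX, mY]

/-- unit complex numbers converging to `1` -/
theorem exists_zeta : ∃ ζ : ℕ → ℂ, (∀ k, ‖ζ k‖ = 1) ∧ (∀ k, 0 < ‖1 - ζ k‖) ∧
    Tendsto (fun k => ‖1 - ζ k‖) atTop (𝓝 0) := by
  refine ⟨fun k => Complex.exp (Complex.I * ((1 / ((k : ℝ) + 1) : ℝ) : ℂ)), fun k => ?_,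
    fun k => ?_, ?_⟩
  · show ‖Complex.exp (Complex.I * ((1 / ((k : ℝ) + 1) : ℝ) : ℂ))‖ = 1
    rw [mul_comm, Complex.norm_exp_ofReal_mul_I]
  · rw [norm_pos_iff, sub_ne_zero]
    intro h
    obtain ⟨n, hn⟩ := Complex.exp_eq_one_iff.1 h.symm
    have h1 := congrArg Complex.im hn
    have hk : (0 : ℝ) < (k : ℝ) + 1 := by positivity
    have hpos : (0 : ℝ) < 1 / ((k : ℝ) + 1) := by positivity
    have hle : 1 / ((k : ℝ) + 1) ≤ 1 := by
      rw [div_le_one hk]
      linarith [(Nat.cast_nonneg k : (0 : ℝ) ≤ k)]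
    have h2 : 1 / ((k : ℝ) + 1) = n * (2 * Real.pi) := by
      have h3 : ((n : ℂ) * (2 * Real.pi * Complex.I)) =
          ((n * (2 * Real.pi) : ℝ) : ℂ) * Complex.I := by
        push_cast
        ring
      rw [h3, mul_comm Complex.I, Complex.im_ofReal_mul, Complex.im_ofReal_mul, Complex.I_im,
        mul_one, mul_one] at h1
      exact h1
    have hpi := Real.pi_gt_three
    rcases lt_trichotomy n 0 with h3 | h3 | h3
    · have h4 : (n : ℝ) < 0 := by exact_mod_cast h3
      nlinarith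
    · subst h3
      simp at h2
      linarith
    · have h4 : (1 : ℝ) ≤ n := by exact_mod_cast h3
      nlinarith
  · refine squeeze_zero (g := fun k : ℕ => 1 / ((k : ℝ) + 1)) (fun k => norm_nonneg _)
      (fun k => ?_) tendsto_one_div_add_atTop_nhds_zero_nat
    rw [norm_sub_rev]
    refine (Real.norm_exp_I_mul_ofReal_sub_one_le (x := 1 / ((k : ℝ) + 1))).trans ?_
    rw [Real.norm_eq_abs, abs_of_pos (by positivity)]

/-- the matrices used for the unitary number `a` -/
noncomputable def mm (ζ : ℕ → ℂ) (r : ℕ → ℕ → ℕ) (a z : ℕ) : Matrix (Fin 2) (Fin 2) ℂ :=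
  if z < a then mD (ζ (r z a)) else if z = a then mX else 1

theorem mm_unitary {ζ : ℕ → ℂ} (hζ : ∀ k, ‖ζ k‖ = 1) (r : ℕ → ℕ → ℕ) (a z : ℕ) :
    star (mm ζ r a z) * mm ζ r a z = 1 ∧ mm ζ r a z * star (mm ζ r a z) = 1 := by
  unfold mm
  split_ifs
  · exact mD_unitary (hζ _)
  · exact mX_unitary
  · simp

theorem unitary_mul {x y : Matrix (Fin 2) (Fin 2) ℂ} (hx : star x * x = 1 ∧ x * star x = 1)
    (hy : star y * y = 1 ∧ y * star y = 1) :
    star (x * y) * (x * y) = 1 ∧ (x * y) * star (x * y) = 1 := by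
  rw [star_mul]
  constructor
  · calc star y * star x * (x * y) = star y * (star x * x) * y := by simp only [mul_assoc]
      _ = 1 := by rw [hx.1, mul_one, hy.1]
  · calc x * y * (star y * star x) = x * (y * star y) * star x := by simp only [mul_assoc]
      _ = 1 := by rw [hy.2, mul_one, hx.2]

theorem comm_lt (t : PTr R) (j : ℕ → (Matrix (Fin 2) (Fin 2) ℂ →⋆ₐ[ℂ] R))
    (hj : ∀ k l, k ≠ l → ∀ x y, j k x * j l y = j l y * j k x) {ζ : ℕ → ℂ}
    (hζ : ∀ k, ‖ζ k‖ = 1) (r : ℕ → ℕ → ℕ) {a b : ℕ} (hba : b < a) :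
    t.n2 (PP j (a + 1) (mm ζ r a) * PP j (b + 1) (mm ζ r b) -
      PP j (b + 1) (mm ζ r b) * PP j (a + 1) (mm ζ r a)) = ‖1 - ζ (r b a)‖ := by
  have hb : PP j (b + 1) (mm ζ r b) = PP j (a + 1) (mm ζ r b) := by
    refine (PP_ext j (by omega) fun z hz => ?_).symm
    unfold mm
    rw [if_neg (by omega), if_neg (by omega)]
  rw [hb, PP_mul j hj, PP_mul j hj]
  set f : ℕ → Matrix (Fin 2) (Fin 2) ℂ := fun z =>
    if z = b then 1 else mm ζ r a z * mm ζ r b z with hf
  have hma : mm ζ r a b = mD (ζ (r b a)) := if_pos hba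
  have hmb : mm ζ r b b = mX := by
    unfold mm
    rw [if_neg (by omega), if_pos rfl]
  have h1 : (PP j (a + 1) fun z => mm ζ r a z * mm ζ r b z) =
      j b (mD (ζ (r b a)) * mX) * PP j (a + 1) f := by
    rw [← PP_single j (show b < a + 1 by omega), PP_mul j hj]
    refine PP_congr j fun z _ => ?_
    by_cases hz : z = b
    · subst hz
      simp [hf, hma, hmb]
    · simp [hf, hz]
  have h2 : (PP j (a + 1) fun z => mm ζ r b z * mm ζ r a z) =
      j b (mX * mD (ζ (r b a))) * PP j (a + 1) f := by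
    rw [← PP_single j (show b < a + 1 by omega), PP_mul j hj]
    refine PP_congr j fun z _ => ?_
    by_cases hz : z = b
    · subst hz
      simp [hf, hma, hmb]
    · have h3 : mm ζ r b z * mm ζ r a z = mm ζ r a z * mm ζ r b z := by
        by_cases hzb : z < b
        · have e1 : mm ζ r b z = mD (ζ (r z b)) := if_pos hzb
          have e2 : mm ζ r a z = mD (ζ (r z a)) := if_pos (by omega)
          rw [e1, e2, mD_comm]
        · have e1 : mm ζ r b z = 1 := by
            unfold mm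
            rw [if_neg hzb, if_neg hz]
          rw [e1, one_mul, mul_one]
      simp [hf, hz, h3]
  rw [h1, h2, ← sub_mul, ← map_sub, mDX, map_smul]
  have hfu := PP_unitary j hj (a + 1) f (fun z => by
    by_cases hz : z = b
    · simp [hf, hz]
    · have : f z = mm ζ r a z * mm ζ r b z := by simp [hf, hz]
      rw [this]
      exact unitary_mul (mm_unitary hζ r a z) (mm_unitary hζ r b z))
  rw [t.n2_mul_unitary hfu.2, t.n2_smul]
  have hY : t.n2 (j b mY) = 1 := by
    have h3 : star (j b mY) * j b mY = 1 := by rw [← map_star, ← map_mul, mY_unitary, map_one]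
    have h4 := t.n2_unitary_mul h3 1
    rwa [mul_one, t.n2_one] at h4
  rw [hY, mul_one]

theorem exists_unitaries (t : PTr R) (hR : IsHyperfinite t) (r : ℕ → ℕ → ℕ)
    (hr : ∀ a b, r a b = r b a) : ∃ (u : ℕ → R) (c : ℕ → ℝ),
      (∀ a, star (u a) * u a = 1 ∧ u a * star (u a) = 1) ∧ (∀ k, 0 < c k) ∧
      Tendsto c atTop (𝓝 0) ∧ ∀ a b, a ≠ b → t.n2 (u a * u b - u b * u a) = c (r a b) := by
  obtain ⟨j, hj, _⟩ := hR.matrices
  obtain ⟨ζ, hζ, hζ0, hζt⟩ := exists_zeta
  refine ⟨fun a => PP j (a + 1) (mm ζ r a), fun k => ‖1 - ζ k‖, fun a =>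
    PP_unitary j hj _ _ (mm_unitary hζ r a), hζ0, hζt, fun a b hab => ?_⟩
  rcases lt_or_gt_of_ne hab with h | h
  · rw [t.n2_sub_comm, comm_lt t j hj hζ r h]
  · rw [comm_lt t j hj hζ r h, hr b a]

end Pool.Agent.K7.H48.UF
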