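import Pool.Agent.Helper234.BrownDefs

/-!
# The balls of the hyperfinite II₁ factor are separable for the 2-norm
-/

set_option autoImplicit false

namespace Pool.Agent.K7.H48.UF

open Pool.Agent.Helper234.Brown Filter Matrix
open scoped Topology

variable {R : Type} [CStarAlgebra R]

theorem countable_closure {S : Set R} (hS : S.Countable) :
    ((Submonoid.closure S : Submonoid R) : Set R).Countable := by
  have : Countable S := hS.to_subtype
  refine (Set.countable_range fun l : List S => (l.map Subtype.val).prod).mono ?_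
  intro x hx
  obtain ⟨l, hl, hx⟩ := Submonoid.exists_list_of_mem_closure hx
  lift l to List S using hl
  exact ⟨l, hx⟩

theorem isSep (t : PTr R) (hR : IsHyperfinite t) : IsSep t := by
  obtain ⟨j, _, hd⟩ := hR.matrices
  set S : Set R := Set.range fun x : ℕ × Fin 2 × Fin 2 =>
    j x.1 (Matrix.single x.2.1 x.2.2 1) with hS
  have hSc : S.Countable := Set.countable_range _
  have hle : Algebra.adjoin ℂ (⋃ k, Set.range (j k)) ≤ Algebra.adjoin ℂ S := by
    rw [Algebra.adjoin_le_iff]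
    rintro _ hx
    obtain ⟨k, m, rfl⟩ := Set.mem_iUnion.1 hx
    show j k m ∈ Algebra.adjoin ℂ S
    rw [Matrix.matrix_eq_sum_single m, map_sum]
    refine Subalgebra.sum_mem _ fun a _ => ?_
    rw [map_sum]
    refine Subalgebra.sum_mem _ fun b _ => ?_
    have h1 : Matrix.single a b (m a b) = m a b • Matrix.single a b (1 : ℂ) := by
      rw [Matrix.smul_single, smul_eq_mul, mul_one]
    rw [h1, map_smul]
    exact Subalgebra.smul_mem _ (Algebra.subset_adjoin
      (show j k (Matrix.single a b 1) ∈ S from ⟨(k, a, b), rfl⟩)) _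
  have hsep : TopologicalSpace.IsSeparable
      ((Submodule.span ℂ ((Submonoid.closure S : Submonoid R) : Set R) : Submodule ℂ R) : Set R) :=
    (countable_closure hSc).isSeparable.span
  obtain ⟨c, hc, hcd⟩ := hsep
  refine ⟨c, hc, fun x ε hε => ?_⟩
  obtain ⟨y, hy, hxy⟩ := hd x (ε / 2) (by positivity)
  have hy' : y ∈ Submodule.span ℂ ((Submonoid.closure S : Submonoid R) : Set R) := by
    rw [← Algebra.adjoin_eq_span]
    exact hle hy
  obtain ⟨z, hz, hyz⟩ := Metric.mem_closure_iff.1 (hcd hy') (ε / 2) (by positivity)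
  refine ⟨z, hz, (t.n2_sub_tri x y z).trans_lt ?_⟩
  have h1 := t.n2_le_norm (y - z)
  rw [dist_eq_norm] at hyz
  linarith

theorem exists_dense (t : PTr R) (hR : IsHyperfinite t) : ∃ D : ℕ → R, ∀ (M : ℕ) (y : R),
    ‖y‖ ≤ M → ∀ ε : ℝ, 0 < ε → ∃ i, ‖D i‖ ≤ M ∧ t.n2 (y - D i) < ε := by
  classical
  obtain ⟨s, hs, hsd⟩ := isSep t hR
  have hsne : s.Nonempty := by
    obtain ⟨y, hy, _⟩ := hsd 0 1 one_pos
    exact ⟨y, hy⟩
  obtain ⟨f, hf⟩ := hs.exists_eq_range hsne
  -- the approximants of the balls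
  let E : ℕ × ℕ × ℕ → R := fun x =>
    if h : ∃ y : R, ‖y‖ ≤ x.1 ∧ t.n2 (y - f x.2.1) < 1 / ((x.2.2 : ℝ) + 1) then h.choose else 0
  let e : ℕ ≃ ℕ × ℕ × ℕ := (Denumerable.eqv (ℕ × ℕ × ℕ)).symm
  refine ⟨fun i => E (e i), fun M y hy ε hε => ?_⟩
  obtain ⟨k, hk⟩ := exists_nat_one_div_lt (show (0 : ℝ) < ε / 2 by positivity)
  obtain ⟨z, hz, hyz⟩ := hsd y (1 / ((k : ℝ) + 1)) (by positivity)
  rw [hf] at hz
  obtain ⟨m, rfl⟩ := hz
  have h : ∃ y : R, ‖y‖ ≤ M ∧ t.n2 (y - f m) < 1 / ((k : ℝ) + 1) := ⟨y, hy, hyz⟩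
  have hE : E (M, m, k) = h.choose := dif_pos h
  refine ⟨e.symm (M, m, k), ?_⟩
  simp only [Equiv.apply_symm_apply]
  rw [hE]
  refine ⟨h.choose_spec.1, ?_⟩
  have h1 := t.n2_sub_tri y (f m) h.choose
  have h2 := h.choose_spec.2
  rw [t.n2_sub_comm] at h2
  linarith

end Pool.Agent.K7.H48.UF
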