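import Pool.Agent.Helper234.BrownDefs

/-!
# Embeddings of groups and of group von Neumann algebras in ultrapowers
-/

set_option autoImplicit false

namespace Pool.Agent.K7.H48.UF

open Pool.Agent.Helper234.Brown
open scoped BoundedContinuousFunction

/-- The group `Γ` embeds in the unitary group of the ultrapower of `(R, t)` with respect to `U`. -/
def GroupEmbeds (Γ : Type) [Group Γ] {R : Type} [CStarAlgebra R] (t : PTr R)
    (U : Ultrafilter ℕ) : Prop :=
  ∃ f : Γ →* unitary (Ultrapower t U), Function.Injective f

/-- the bicommutant -/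
def bicomm {A : Type} [CStarAlgebra A] (S : Set A) : StarSubalgebra ℂ A :=
  StarSubalgebra.centralizer ℂ (StarSubalgebra.centralizer ℂ S : Set A)

/-- There is an injective unital star homomorphism `θ` from `N` to the ultrapower of `(R, t)` with
respect to `U` such that the trace of `θ a` is `φ a`. -/
def TraceEmbeds {A : Type} [CStarAlgebra A] (N : StarSubalgebra ℂ A) (φ : A → ℂ) {R : Type}
    [CStarAlgebra R] (t : PTr R) (U : Ultrafilter ℕ) : Prop :=
  ∃ θ : N →⋆ₐ[ℂ] Ultrapower t U, Function.Injective θ ∧
    ∀ (a : N) (y : ℕ →ᵇ R), cls t U y = θ a → (t.ultra U).tr y = φ a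

/-- The group von Neumann algebra of `Γ` embeds in the ultrapower of `(R, t)` with respect to `U`
by an injective unital trace preserving star homomorphism. Here `H` is the Hilbert space `ℓ²(Γ)`
with the orthonormal basis `b g`, for `g` in `Γ`, `L` is the left regular representation of `Γ`
on `H`, the group von Neumann algebra is the bicommutant of the operators `L g`, and the trace
of `x` is the inner product of `x (b 1)` and `b 1`. -/
def AlgebraEmbeds (Γ : Type) [Group Γ] {R : Type} [CStarAlgebra R] (t : PTr R)
    (U : Ultrafilter ℕ) : Prop :=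
  ∀ (H : Type) (_ : NormedAddCommGroup H) (_ : InnerProductSpace ℂ H) (_ : CompleteSpace H)
    (b : HilbertBasis Γ ℂ H) (L : Γ → H →L[ℂ] H), (∀ g h, L g (b h) = b (g * h)) →
    TraceEmbeds (bicomm (Set.range L)) (fun x => inner ℂ (b 1) (x (b 1))) t U

end Pool.Agent.K7.H48.UF
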