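import Pool.Agent.H667R2.FG.TL2
import Pool.Agent.K7.H48.UF.Emb
import Pool.Agent.K7.H48.UF.Alg1
import Pool.Agent.K7.H48.UF.Alg2

/-!
# From the combinatorial principle to the unitary group of the ultrapower
-/

set_option autoImplicit false

namespace Pool.Agent.K7.H48.UF

open Pool.Agent.Helper234.Brown Filter
open Pool.Agent.H667R2.FG (Ell tau lam delta)
open scoped Topology BoundedContinuousFunction

variable {R : Type} [CStarAlgebra R]

section tau

variable {G : Type} [Group G]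

open Pool.Agent.H667R2.FG.TL2 in
theorem tau_comm {g h : G} (hgh : g * h ≠ h * g) :
    tau (star (lam g * lam h - lam h * lam g) * (lam g * lam h - lam h * lam g)) = 2 := by
  classical
  have hne1 : (1 : G) ≠ (g * h)⁻¹ * (h * g) := by
    intro h2
    exact hgh (inv_mul_eq_one.1 h2.symm)
  have hne2 : (1 : G) ≠ (h * g)⁻¹ * (g * h) := by
    intro h2
    exact hgh (inv_mul_eq_one.1 h2.symm).symm
  rw [← lam_mul, ← lam_mul, star_sub, star_lam, star_lam, sub_mul, mul_sub, mul_sub, ← lam_mul,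
    ← lam_mul, ← lam_mul, ← lam_mul, inv_mul_cancel, inv_mul_cancel]
  unfold tau
  simp only [_root_.sub_apply, lam_delta, mul_one, lp.coeFn_sub, Pi.sub_apply,
    delta_apply, if_true, if_neg hne1, if_neg hne2]
  norm_num

end tau

theorem norm_le_one_of_unitary {u : R} (h : star u * u = 1) (t : PTr R) : ‖u‖ ≤ 1 := by
  have hnt : Nontrivial R := by
    refine ⟨⟨1, 0, fun h => ?_⟩⟩
    have h1 := t.tr_one
    rw [h, map_zero] at h1
    exact zero_ne_one h1
  have h1 : ‖u‖ * ‖u‖ = 1 := by rw [← CStarRing.norm_star_mul_self, h, norm_one]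
  nlinarith [norm_nonneg u]

theorem n2_abs_sub (t : PTr R) (x y : R) : |t.n2 x - t.n2 y| ≤ t.n2 (x - y) := by
  rw [abs_le]
  have h1 := t.n2_add_le (x - y) y
  have h2 := t.n2_add_le (y - x) x
  rw [sub_add_cancel] at h1 h2
  rw [t.n2_sub_comm y x] at h2
  constructor <;> linarith

theorem n2_mul_sub (t : PTr R) (a b a' b' : R) :
    t.n2 (a * b - a' * b') ≤ ‖a‖ * t.n2 (b - b') + t.n2 (a - a') * ‖b'‖ := by
  have h : a * b - a' * b' = a * (b - b') + (a - a') * b' := by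
    rw [mul_sub, sub_mul]
    abel
  rw [h]
  exact (t.n2_add_le _ _).trans (add_le_add (t.n2_mul_le _ _) (t.n2_mul_le' _ _))

/-- The unitary group of the ultrapower is a group whose von Neumann algebra does not embed. -/
theorem main_alg (t : PTr R) (hR : IsHyperfinite t) (U : Ultrafilter ℕ)
    (hU : ∀ m : ℕ, ∀ᶠ n in (U : Filter ℕ), m < n) {ι : Type} (r : ℕ → ℕ → ℕ)
    (hr : ∀ a b, r a b = r b a) (x : ι → ℕ → ℕ)
    (H : ∀ (g : ι → ℕ → ℕ) (C : ℕ → ℕ → Prop), ¬ ∀ ξ η,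
      ((∀ k, ¬ ∀ᶠ n in (U : Filter ℕ), x ξ n ≠ x η n ∧ r (x ξ n) (x η n) = k) ↔
        ∀ᶠ n in (U : Filter ℕ), C (g ξ n) (g η n))) {A : Type} [CStarAlgebra A]
    (N : StarSubalgebra ℂ A) (φ : A → ℂ) (lamE : unitary (Ultrapower t U) → N)
    (hl : ∀ g h, lamE (g * h) = lamE g * lamE h)
    (hφ : ∀ g h, g * h ≠ h * g → φ ((star (lamE g * lamE h - lamE h * lamE g) *
      (lamE g * lamE h - lamE h * lamE g) : N) : A) = 2) : ¬ TraceEmbeds N φ t U := by
  classical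
  rintro ⟨θ, _, hθ⟩
  have hUtop : (U : Filter ℕ) ≤ atTop := by
    have h1 : Tendsto id (U : Filter ℕ) atTop :=
      tendsto_atTop.2 fun m => (hU m).mono fun n hn => hn.le
    exact h1
  obtain ⟨u, c, hu, hc0, hct, huc⟩ := exists_unitaries t hR r hr
  obtain ⟨D, hD⟩ := exists_dense t hR
  -- the unitaries of the ultrapower
  let s : ι → (ℕ →ᵇ R) := fun ξ => BoundedContinuousFunction.ofNormedAddCommGroupDiscrete
    (fun n => u (x ξ n)) 1 fun n => norm_le_one_of_unitary (hu _).1 t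
  have hs : ∀ ξ n, s ξ n = u (x ξ n) := fun ξ n => rfl
  have hs1 : ∀ ξ, star (s ξ) * s ξ = 1 := fun ξ => by
    ext n
    exact (hu (x ξ n)).1
  have hs2 : ∀ ξ, s ξ * star (s ξ) = 1 := fun ξ => by
    ext n
    exact (hu (x ξ n)).2
  let w : ι → unitary (Ultrapower t U) := fun ξ => ⟨cls t U (s ξ), by
    rw [Unitary.mem_iff, star_cls, ← map_mul, ← map_mul, hs1, hs2, map_one]
    exact ⟨rfl, rfl⟩⟩
  have hw : ∀ ξ, (w ξ : Ultrapower t U) = cls t U (s ξ) := fun ξ => rfl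
  have hcomm : ∀ ξ η, w ξ * w η = w η * w ξ ↔
      (t.ultra U).n2 (s ξ * s η - s η * s ξ) = 0 := by
    intro ξ η
    rw [← cls_eq_iff, map_mul, map_mul, ← hw, ← hw]
    constructor
    · intro h
      exact congrArg Subtype.val h
    · intro h
      exact Subtype.ext h
  have htend : ∀ ξ η, Tendsto (fun n => t.n2 (u (x ξ n) * u (x η n) - u (x η n) * u (x ξ n)))
      (U : Filter ℕ) (𝓝 ((t.ultra U).n2 (s ξ * s η - s η * s ξ))) := fun ξ η =>
    t.tendsto_n2 U (s ξ * s η - s η * s ξ)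
  -- commuting elements
  have hE1 : ∀ ξ η, (∀ k, ¬ ∀ᶠ n in (U : Filter ℕ), x ξ n ≠ x η n ∧ r (x ξ n) (x η n) = k) →
      w ξ * w η = w η * w ξ := by
    intro ξ η hE
    rw [hcomm]
    refine tendsto_nhds_unique (htend ξ η) ?_
    rw [Metric.tendsto_nhds]
    intro ε hε
    obtain ⟨K, hK⟩ := eventually_atTop.1 ((Metric.tendsto_nhds.1 hct) ε hε)
    have h1 : ∀ᶠ n in (U : Filter ℕ), ∀ k ∈ Finset.range K,
        ¬ (x ξ n ≠ x η n ∧ r (x ξ n) (x η n) = k) := by
      rw [Filter.eventually_all_finset]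
      intro k _
      exact Ultrafilter.eventually_not.2 (hE k)
    refine h1.mono fun n hn => ?_
    by_cases hxy : x ξ n = x η n
    · rw [hxy, sub_self, t.n2_zero, dist_self]
      exact hε
    · rw [huc _ _ hxy]
      refine hK _ ?_
      by_contra hlt
      exact hn (r (x ξ n) (x η n)) (Finset.mem_range.2 (not_le.1 hlt)) ⟨hxy, rfl⟩
  have hE2 : ∀ ξ η, ¬ (∀ k, ¬ ∀ᶠ n in (U : Filter ℕ), x ξ n ≠ x η n ∧ r (x ξ n) (x η n) = k) →
      w ξ * w η ≠ w η * w ξ := by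
    intro ξ η hE hw'
    push Not at hE
    obtain ⟨k, hk⟩ := hE
    have h1 : Tendsto (fun n => t.n2 (u (x ξ n) * u (x η n) - u (x η n) * u (x ξ n)))
        (U : Filter ℕ) (𝓝 (c k)) := by
      refine tendsto_const_nhds.congr' (hk.mono fun n hn => ?_)
      show c k = t.n2 (u (x ξ n) * u (x η n) - u (x η n) * u (x ξ n))
      rw [huc _ _ hn.1, hn.2]
    have h2 := tendsto_nhds_unique h1 (htend ξ η)
    rw [(hcomm ξ η).1 hw'] at h2
    exact (hc0 k).ne' h2
  -- the images of the canonical unitaries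
  choose V hV using fun ξ => Ideal.Quotient.mk_surjective (I := nullIdeal t U) (θ (lamE (w ξ)))
  have hVn : ∀ ξ n, ‖V ξ n‖ ≤ (⌈‖V ξ‖⌉₊ : ℕ) := fun ξ n =>
    ((V ξ).norm_coe_le_norm n).trans (Nat.le_ceil _)
  choose g hg1 hg2 using fun ξ (n : ℕ) => hD ⌈‖V ξ‖⌉₊ (V ξ n) (hVn ξ n) (1 / ((n : ℝ) + 1))
    (by positivity)
  have hlim : ∀ ξ η, Tendsto (fun n => t.n2 (D (g ξ n) * D (g η n) - D (g η n) * D (g ξ n)))
      (U : Filter ℕ) (𝓝 ((t.ultra U).n2 (V ξ * V η - V η * V ξ))) := by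
    intro ξ η
    have h1 := t.tendsto_n2 U (V ξ * V η - V η * V ξ)
    have h2 : Tendsto (fun n => t.n2 (D (g ξ n) * D (g η n) - D (g η n) * D (g ξ n)) -
        t.n2 ((V ξ * V η - V η * V ξ) n)) (U : Filter ℕ) (𝓝 0) := by
      have h0 : Tendsto (fun n : ℕ => (2 * ((⌈‖V ξ‖⌉₊ : ℝ) + ⌈‖V η‖⌉₊)) * (1 / ((n : ℝ) + 1)))
          (U : Filter ℕ) (𝓝 0) := by
        have := (tendsto_one_div_add_atTop_nhds_zero_nat (𝕜 := ℝ)).mono_left hUtop
        simpa using this.const_mul (2 * ((⌈‖V ξ‖⌉₊ : ℝ) + ⌈‖V η‖⌉₊))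
      refine squeeze_zero_norm (fun n => ?_) h0
      rw [Real.norm_eq_abs]
      refine (n2_abs_sub t _ _).trans ?_
      have e1 : (V ξ * V η - V η * V ξ) n = V ξ n * V η n - V η n * V ξ n := rfl
      rw [e1]
      have e2 : D (g ξ n) * D (g η n) - D (g η n) * D (g ξ n) -
          (V ξ n * V η n - V η n * V ξ n) = (D (g ξ n) * D (g η n) - V ξ n * V η n) -
          (D (g η n) * D (g ξ n) - V η n * V ξ n) := by abel
      rw [e2]
      refine (t.n2_sub_le _ _).trans ?_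
      have a1 := n2_mul_sub t (D (g ξ n)) (D (g η n)) (V ξ n) (V η n)
      have a2 := n2_mul_sub t (D (g η n)) (D (g ξ n)) (V η n) (V ξ n)
      have b1 := hg2 ξ n
      have b2 := hg2 η n
      rw [t.n2_sub_comm] at b1 b2
      have c1 := hg1 ξ n
      have c2 := hg1 η n
      have d1 := hVn ξ n
      have d2 := hVn η n
      have f1 := t.n2_nonneg (D (g ξ n) - V ξ n)
      have f2 := t.n2_nonneg (D (g η n) - V η n)
      have g1 := norm_nonneg (D (g ξ n))
      have g2 := norm_nonneg (D (g η n))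
      have g3 := norm_nonneg (V ξ n)
      have g4 := norm_nonneg (V η n)
      have hp : (0 : ℝ) ≤ 1 / ((n : ℝ) + 1) := by positivity
      have m1 : ‖D (g ξ n)‖ * t.n2 (D (g η n) - V η n) ≤ (⌈‖V ξ‖⌉₊ : ℝ) * (1 / ((n : ℝ) + 1)) :=
        mul_le_mul c1 b2.le f2 (g1.trans c1)
      have m2 : t.n2 (D (g ξ n) - V ξ n) * ‖V η n‖ ≤ (1 / ((n : ℝ) + 1)) * (⌈‖V η‖⌉₊ : ℝ) :=
        mul_le_mul b1.le d2 g4 hp
      have m3 : ‖D (g η n)‖ * t.n2 (D (g ξ n) - V ξ n) ≤ (⌈‖V η‖⌉₊ : ℝ) * (1 / ((n : ℝ) + 1)) :=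
        mul_le_mul c2 b1.le f1 (g2.trans c2)
      have m4 : t.n2 (D (g η n) - V η n) * ‖V ξ n‖ ≤ (1 / ((n : ℝ) + 1)) * (⌈‖V ξ‖⌉₊ : ℝ) :=
        mul_le_mul b2.le d1 g3 hp
      linarith
    have h3 := h2.add h1
    simpa using h3
  -- the contradiction
  refine H g (fun i j => t.n2 (D i * D j - D j * D i) < 1) fun ξ η => ⟨fun hE => ?_, fun hC => ?_⟩
  · have h1 : (t.ultra U).n2 (V ξ * V η - V η * V ξ) = 0 := by
      rw [← cls_eq_iff, map_mul, map_mul]
      show Ideal.Quotient.mk (nullIdeal t U) (V ξ) * Ideal.Quotient.mk (nullIdeal t U) (V η) =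
        Ideal.Quotient.mk (nullIdeal t U) (V η) * Ideal.Quotient.mk (nullIdeal t U) (V ξ)
      rw [hV, hV, ← map_mul, ← map_mul]
      congr 1
      rw [← hl, ← hl, hE1 ξ η hE]
    have h2 := hlim ξ η
    rw [h1] at h2
    exact h2.eventually (gt_mem_nhds one_pos)
  · by_contra hE
    have hne := hE2 ξ η hE
    have hlim' := hlim ξ η
    obtain ⟨z, hz⟩ : ∃ z : N, z = lamE (w ξ) * lamE (w η) - lamE (w η) * lamE (w ξ) := ⟨_, rfl⟩
    obtain ⟨W, hW⟩ : ∃ W : ℕ →ᵇ R, W = V ξ * V η - V η * V ξ := ⟨_, rfl⟩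
    have h0 : cls t U W = θ z := by
      rw [hW, hz, map_sub, map_mul, map_mul]
      rw [map_sub θ, map_mul θ, map_mul θ, ← hV, ← hV]
    have h1 : cls t U (star W * W) = θ (star z * z) := by
      rw [map_mul, ← star_cls, h0, map_mul θ, map_star θ]
    have h2 := hθ _ _ h1
    rw [hz, hφ _ _ hne] at h2
    rw [← hW] at hlim'
    have h3 : (t.ultra U).n2 W ^ 2 = 2 := by
      rw [PTr.n2_sq, h2]
      norm_num
    have h4 : (1 : ℝ) < (t.ultra U).n2 W := by
      have := (t.ultra U).n2_nonneg W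
      nlinarith
    have h5 := hlim'.eventually (lt_mem_nhds h4)
    obtain ⟨n, hn1, hn2⟩ := (h5.and hC).exists
    exact lt_asymm hn1 hn2

theorem mem_bicomm {A : Type} [CStarAlgebra A] {S : Set A} {x : A} (hx : x ∈ S) :
    x ∈ bicomm S := by
  unfold bicomm
  rw [StarSubalgebra.mem_centralizer_iff]
  intro z hz
  have h1 := StarSubalgebra.mem_centralizer_iff ℂ |>.1 hz x hx
  refine ⟨h1.1.symm, ?_⟩
  have h2 := congrArg star h1.2
  rw [star_mul, star_mul, star_star] at h2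
  exact h2

/-- The von Neumann algebra of the unitary group of the ultrapower does not embed. -/
theorem not_algebraEmbeds (t : PTr R) (hR : IsHyperfinite t) (U : Ultrafilter ℕ)
    (hU : ∀ m : ℕ, ∀ᶠ n in (U : Filter ℕ), m < n) {ι : Type} (r : ℕ → ℕ → ℕ)
    (hr : ∀ a b, r a b = r b a) (x : ι → ℕ → ℕ)
    (H : ∀ (g : ι → ℕ → ℕ) (C : ℕ → ℕ → Prop), ¬ ∀ ξ η,
      ((∀ k, ¬ ∀ᶠ n in (U : Filter ℕ), x ξ n ≠ x η n ∧ r (x ξ n) (x η n) = k) ↔
        ∀ᶠ n in (U : Filter ℕ), C (g ξ n) (g η n))) :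
    ¬ AlgebraEmbeds (unitary (Ultrapower t U)) t U := by
  classical
  intro h
  let b : HilbertBasis (unitary (Ultrapower t U)) ℂ (Ell (unitary (Ultrapower t U))) :=
    HilbertBasis.ofRepr (LinearIsometryEquiv.refl ℂ _)
  have hb : ∀ g, b g = delta g := by
    intro g
    have h1 := b.repr_symm_single g
    rw [← h1]
    show lp.single 2 g (1 : ℂ) = delta g
    unfold delta
    congr
    exact Subsingleton.elim _ _
  have h1 := h (Ell (unitary (Ultrapower t U))) inferInstance inferInstance inferInstance b lam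
    (fun g h => by rw [hb, hb, Pool.Agent.H667R2.FG.TL2.lam_delta])
  refine main_alg t hR U hU r hr x H (bicomm (Set.range lam)) _
    (fun g => ⟨lam g, mem_bicomm ⟨g, rfl⟩⟩)
    (fun g h => Subtype.ext (Pool.Agent.H667R2.FG.TL2.lam_mul g h)) (fun g h hgh => ?_) h1
  rw [hb, Pool.Agent.H667R2.FG.TL2.inner_delta]
  exact tau_comm hgh

end Pool.Agent.K7.H48.UF
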