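import Pool.Agent.K7.H48.UF.Lg

/-!
# The forcing notion, and fusion

A condition consists of an infinite set `a` of levels, a countable set `w` of coordinates and
finite sets `S n ζ` of possible values of the `ζ`-th function at `n`. Only finitely many
coordinates have more than one possible value at a given level, at levels outside `a` there is
exactly one possible value, and along `a` the sets `S n ζ` become arbitrarily large.
-/

set_option autoImplicit false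

namespace Pool.Agent.K7.H48.UF

/-- conditions -/
structure Cond (ι : Type) where
  /-- the levels -/
  a : Set ℕ
  /-- the coordinates -/
  w : Set ι
  /-- the possible values -/
  S : ℕ → ι → Finset ℕ
  inf : a.Infinite
  cnt : w.Countable
  ne : ∀ n, ∀ ζ ∈ w, (S n ζ).Nonempty
  fin : ∀ n, {ζ | ζ ∈ w ∧ 1 < (S n ζ).card}.Finite
  off : ∀ n, n ∉ a → ∀ ζ ∈ w, (S n ζ).card ≤ 1
  lg : ∀ ζ ∈ w, ∀ j, ∃ N, ∀ n ∈ a, N ≤ n → Large j (S n ζ)

variable {ι : Type}

instance : Preorder (Cond ι) where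
  le q p := q.a ⊆ p.a ∧ p.w ⊆ q.w ∧ ∀ n, ∀ ζ ∈ p.w, q.S n ζ ⊆ p.S n ζ
  le_refl p := ⟨Set.Subset.rfl, Set.Subset.rfl, fun _ _ _ => Finset.Subset.rfl⟩
  le_trans p q r h h' := ⟨h.1.trans h'.1, h'.2.1.trans h.2.1, fun n ζ hζ =>
    (h.2.2 n ζ (h'.2.1 hζ)).trans (h'.2.2 n ζ hζ)⟩

theorem le_def {q p : Cond ι} : q ≤ p ↔ q.a ⊆ p.a ∧ p.w ⊆ q.w ∧
    ∀ n, ∀ ζ ∈ p.w, q.S n ζ ⊆ p.S n ζ := Iff.rfl

/-- `X` is a stem of `p` of length `N` -/
def In (p : Cond ι) (N : ℕ) (X : ℕ → ι → ℕ) : Prop := ∀ n < N, ∀ ζ ∈ p.w, X n ζ ∈ p.S n ζ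

/-- the condition `p` with the stem `X` -/
noncomputable def fix (p : Cond ι) (N : ℕ) (X : ℕ → ι → ℕ) : Cond ι where
  a := p.a ∩ {n | N ≤ n}
  w := p.w
  S n ζ := if n < N then {X n ζ} else p.S n ζ
  inf := by
    have h := p.inf.sdiff (Set.finite_lt_nat N)
    refine h.mono fun n hn => ⟨hn.1, ?_⟩
    simpa using hn.2
  cnt := p.cnt
  ne n ζ hζ := by
    split_ifs
    · exact Finset.singleton_nonempty _
    · exact p.ne n ζ hζ
  fin n := by
    refine (p.fin n).subset ?_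
    rintro ζ ⟨hζ, h⟩
    refine ⟨hζ, ?_⟩
    split_ifs at h
    · simp at h
    · exact h
  off n hn ζ hζ := by
    split_ifs with h
    · simp
    · exact p.off n (fun hn' => hn ⟨hn', not_lt.1 h⟩) ζ hζ
  lg ζ hζ j := by
    obtain ⟨M, hM⟩ := p.lg ζ hζ j
    refine ⟨M, fun n hn hMn => ?_⟩
    rw [if_neg (not_lt.2 hn.2)]
    exact hM n hn.1 hMn

@[simp] theorem fix_w (p : Cond ι) (N : ℕ) (X : ℕ → ι → ℕ) : (fix p N X).w = p.w := rfl

theorem fix_S_lt (p : Cond ι) {N : ℕ} (X : ℕ → ι → ℕ) {n : ℕ} (h : n < N) (ζ : ι) :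
    (fix p N X).S n ζ = {X n ζ} := if_pos h

theorem fix_S_ge (p : Cond ι) {N : ℕ} (X : ℕ → ι → ℕ) {n : ℕ} (h : N ≤ n) (ζ : ι) :
    (fix p N X).S n ζ = p.S n ζ := if_neg (not_lt.2 h)

theorem mem_fix_a {p : Cond ι} {N : ℕ} {X : ℕ → ι → ℕ} {n : ℕ} :
    n ∈ (fix p N X).a ↔ n ∈ p.a ∧ N ≤ n := Iff.rfl

theorem In.mono {p q : Cond ι} (h : q ≤ p) {N M : ℕ} (hN : M ≤ N) {X : ℕ → ι → ℕ} (hX : In q N X) :
    In p M X := fun n hn ζ hζ => h.2.2 n ζ hζ (hX n (hn.trans_le hN) ζ (h.2.1 hζ))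

theorem fix_le {p : Cond ι} {N : ℕ} {X : ℕ → ι → ℕ} (hX : In p N X) : fix p N X ≤ p := by
  refine ⟨fun n hn => hn.1, Set.Subset.rfl, fun n ζ hζ => ?_⟩
  by_cases h : n < N
  · rw [fix_S_lt p X h]
    simpa using hX n h ζ hζ
  · rw [fix_S_ge p X (not_lt.1 h)]

theorem fix_le_fix {p q : Cond ι} (h : q ≤ p) {N M : ℕ} (hN : M ≤ N) {X X' : ℕ → ι → ℕ}
    (hX : ∀ n < M, ∀ ζ ∈ p.w, X n ζ = X' n ζ) (hIn : In q N X) : fix q N X ≤ fix p M X' := by
  refine ⟨fun n hn => ⟨h.1 hn.1, hN.trans hn.2⟩, h.2.1, fun n ζ hζ => ?_⟩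
  by_cases h1 : n < M
  · rw [fix_S_lt p X' h1, fix_S_lt q X (h1.trans_le hN), hX n h1 ζ hζ]
  · rw [fix_S_ge p X' (not_lt.1 h1)]
    by_cases h2 : n < N
    · rw [fix_S_lt q X h2]
      simpa using h.2.2 n ζ hζ (hIn n h2 ζ (h.2.1 hζ))
    · rw [fix_S_ge q X (not_lt.1 h2)]
      exact h.2.2 n ζ hζ

theorem fix_mono {p q : Cond ι} (h : q ≤ p) {N : ℕ} {X : ℕ → ι → ℕ} :
    fix q N X ≤ fix p N X := by
  refine ⟨fun n hn => ⟨h.1 hn.1, hn.2⟩, h.2.1, fun n ζ hζ => ?_⟩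
  by_cases h1 : n < N
  · rw [fix_S_lt p X h1, fix_S_lt q X h1]
  · rw [fix_S_ge p X (not_lt.1 h1), fix_S_ge q X (not_lt.1 h1)]
    exact h.2.2 n ζ hζ

theorem fix_congr {p : Cond ι} {N : ℕ} {X X' : ℕ → ι → ℕ}
    (hX : ∀ n < N, ∀ ζ ∈ p.w, X n ζ = X' n ζ) : fix p N X ≤ fix p N X' := by
  refine ⟨fun n hn => hn, Set.Subset.rfl, fun n ζ hζ => ?_⟩
  by_cases h1 : n < N
  · rw [fix_S_lt p X' h1, fix_S_lt p X h1, hX n h1 ζ hζ]
  · rw [fix_S_ge p X' (not_lt.1 h1), fix_S_ge p X (not_lt.1 h1)]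

/-- a choice of values -/
noncomputable def ch (p : Cond ι) (n : ℕ) (ζ : ι) : ℕ := by
  classical exact if h : (p.S n ζ).Nonempty then h.choose else 0

theorem ch_mem (p : Cond ι) (n : ℕ) {ζ : ι} (hζ : ζ ∈ p.w) : ch p n ζ ∈ p.S n ζ := by
  unfold ch
  rw [dif_pos (p.ne n ζ hζ)]
  exact (p.ne n ζ hζ).choose_spec

theorem In_ch (p : Cond ι) (N : ℕ) : In p N (ch p) := fun n _ _ hζ => ch_mem p n hζ

/-- every condition below `p` is compatible with some stem of `p` -/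
theorem exists_stem {p r : Cond ι} (h : r ≤ p) (N : ℕ) :
    ∃ X, In r N X ∧ fix r N X ≤ r ∧ fix r N X ≤ fix p N X :=
  ⟨ch r, In_ch r N, fix_le (In_ch r N), fix_mono h⟩

theorem eq_of_card_le_one {s : Finset ℕ} (h : s.card ≤ 1) {a b : ℕ} (ha : a ∈ s) (hb : b ∈ s) :
    a = b := Finset.card_le_one.1 h a ha b hb

/-- there are finitely many stems -/
theorem exists_stems (p : Cond ι) (N : ℕ) : ∃ L : List (ℕ → ι → ℕ), (∀ X ∈ L, In p N X) ∧
    ∀ X, In p N X → ∃ Y ∈ L, ∀ n < N, ∀ ζ ∈ p.w, X n ζ = Y n ζ := by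
  classical
  induction N with
  | zero => exact ⟨[fun _ _ => 0], by simp [In], fun X _ => ⟨_, List.mem_singleton_self _, by simp⟩⟩
  | succ N ih =>
    obtain ⟨L, hL, hL'⟩ := ih
    have hbox := finite_box (p.fin N).toFinset (p.S N) (ch p N)
    refine ⟨L.flatMap fun Y => hbox.toFinset.toList.map fun f => Function.update Y N f, ?_, ?_⟩
    · intro X hX
      obtain ⟨Y, hY, hX'⟩ := List.mem_flatMap.1 hX
      obtain ⟨f, hf, rfl⟩ := List.mem_map.1 hX'
      have hf' : InBox (p.fin N).toFinset (p.S N) (ch p N) f := by simpa using hf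
      intro n hn ζ hζ
      by_cases hnN : n = N
      · subst hnN
        rw [Function.update_self]
        by_cases hζF : ζ ∈ (p.fin n).toFinset
        · exact hf'.1 ζ hζF
        · rw [hf'.2 ζ hζF]
          exact ch_mem p n hζ
      · rw [Function.update_of_ne hnN]
        exact hL Y hY n (by omega) ζ hζ
    · intro X hX
      obtain ⟨Y, hY, hXY⟩ := hL' X fun n hn => hX n (by omega)
      have hf' : InBox (p.fin N).toFinset (p.S N) (ch p N)
          (fun ζ => if ζ ∈ (p.fin N).toFinset then X N ζ else ch p N ζ) := by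
        refine ⟨fun ζ hζ => ?_, fun ζ hζ => by simp only [if_neg hζ]⟩
        simp only [if_pos hζ]
        exact hX N (Nat.lt_succ_self N) ζ ((p.fin N).mem_toFinset.1 hζ).1
      refine ⟨_, List.mem_flatMap.2 ⟨Y, hY, List.mem_map.2
        ⟨fun ζ => if ζ ∈ (p.fin N).toFinset then X N ζ else ch p N ζ, ?_, rfl⟩⟩, ?_⟩
      · exact Finset.mem_toList.2 (hbox.mem_toFinset.2 hf')
      · intro n hn ζ hζ
        by_cases hnN : n = N
        · subst hnN
          rw [Function.update_self]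
          by_cases hζF : ζ ∈ (p.fin n).toFinset
          · simp only [if_pos hζF]
          · simp only [if_neg hζF]
            have hc : (p.S n ζ).card ≤ 1 := by
              by_contra hc
              exact hζF ((p.fin n).mem_toFinset.2 ⟨hζ, not_le.1 hc⟩)
            exact eq_of_card_le_one hc (hX n (Nat.lt_succ_self n) ζ hζ) (ch_mem p n hζ)
        · rw [Function.update_of_ne hnN]
          exact hXY n (by omega) ζ hζ

/-- `q` extends `p` and is equal to it below the level `N` -/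
structure LeN (N : ℕ) (q p : Cond ι) : Prop where
  le : q ≤ p
  a : ∀ n < N, n ∈ p.a → n ∈ q.a
  S : ∀ n < N, ∀ ζ ∈ p.w, q.S n ζ = p.S n ζ
  new : ∀ n < N, ∀ ζ ∈ q.w, ζ ∉ p.w → (q.S n ζ).card ≤ 1

theorem LeN.refl (N : ℕ) (p : Cond ι) : LeN N p p :=
  ⟨le_rfl, fun _ _ h => h, fun _ _ _ _ => rfl, fun _ _ _ h h' => absurd h h'⟩

theorem LeN.trans {N : ℕ} {r q p : Cond ι} (h : LeN N r q) (h' : LeN N q p) : LeN N r p := by
  refine ⟨h.le.trans h'.le, fun n hn hp => h.a n hn (h'.a n hn hp), fun n hn ζ hζ => ?_,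
    fun n hn ζ hζ hζ' => ?_⟩
  · rw [h.S n hn ζ (h'.le.2.1 hζ), h'.S n hn ζ hζ]
  · by_cases hq : ζ ∈ q.w
    · rw [h.S n hn ζ hq]
      exact h'.new n hn ζ hq hζ'
    · exact h.new n hn ζ hζ hq

theorem LeN.mono {N M : ℕ} {q p : Cond ι} (h : LeN N q p) (hM : M ≤ N) : LeN M q p :=
  ⟨h.le, fun n hn => h.a n (hn.trans_le hM), fun n hn => h.S n (hn.trans_le hM),
    fun n hn => h.new n (hn.trans_le hM)⟩

/-- the condition which is `q` below `N` and `r` from `N` on -/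
noncomputable def glue (q r : Cond ι) (N : ℕ) (h : r ≤ q) (hN : ∀ n ∈ r.a, N ≤ n) : Cond ι := by
  classical exact
  { a := (q.a ∩ {n | n < N}) ∪ r.a
    w := r.w
    S := fun n ζ => if n < N ∧ ζ ∈ q.w then q.S n ζ else r.S n ζ
    inf := r.inf.mono Set.subset_union_right
    cnt := r.cnt
    ne := by
      intro n ζ hζ
      split_ifs with h1
      · exact q.ne n ζ h1.2
      · exact r.ne n ζ hζ
    fin := by
      intro n
      refine ((q.fin n).union (r.fin n)).subset ?_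
      rintro ζ ⟨hζ, h1⟩
      split_ifs at h1 with h2
      · exact Or.inl ⟨h2.2, h1⟩
      · exact Or.inr ⟨hζ, h1⟩
    off := by
      intro n hn ζ hζ
      split_ifs with h1
      · exact q.off n (fun h2 => hn (Or.inl ⟨h2, h1.1⟩)) ζ h1.2
      · exact r.off n (fun h2 => hn (Or.inr h2)) ζ hζ
    lg := by
      intro ζ hζ j
      obtain ⟨M, hM⟩ := r.lg ζ hζ j
      refine ⟨max M N, fun n hn hn' => ?_⟩
      have h1 : ¬ n < N := not_lt.2 ((le_max_right _ _).trans hn')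
      rw [if_neg (fun h2 => h1 h2.1)]
      rcases hn with h2 | h2
      · exact absurd h2.2 h1
      · exact hM n h2 ((le_max_left _ _).trans hn') }

theorem glue_LeN (q r : Cond ι) (N : ℕ) (h : r ≤ q) (hN : ∀ n ∈ r.a, N ≤ n) :
    LeN N (glue q r N h hN) q := by
  classical
  refine ⟨⟨?_, h.2.1, fun n ζ hζ => ?_⟩, fun n hn hp => Or.inl ⟨hp, hn⟩, fun n hn ζ hζ => ?_,
    fun n hn ζ hζ hζ' => ?_⟩
  · rintro n (h1 | h1)
    · exact h1.1
    · exact h.1 h1
  · simp only [glue]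
    split_ifs with h1
    · exact Finset.Subset.rfl
    · exact h.2.2 n ζ hζ
  · simp only [glue]
    rw [if_pos ⟨hn, hζ⟩]
  · simp only [glue]
    rw [if_neg (fun h1 => hζ' h1.2)]
    exact r.off n (fun h1 => absurd (hN n h1) (not_le.2 hn)) ζ hζ

theorem fix_glue_le (q r : Cond ι) (N : ℕ) (X : ℕ → ι → ℕ) (h : r ≤ q) (hN : ∀ n ∈ r.a, N ≤ n)
    (hr : r ≤ fix q N X) {X' : ℕ → ι → ℕ} (hX' : In (glue q r N h hN) N X')
    (hXX' : ∀ n < N, ∀ ζ ∈ q.w, X' n ζ = X n ζ) : fix (glue q r N h hN) N X' ≤ r := by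
  classical
  refine ⟨?_, Set.Subset.rfl, fun n ζ hζ => ?_⟩
  · rintro n ⟨h1 | h1, h2⟩
    · exact absurd (show n < N from h1.2) (not_lt.2 h2)
    · exact h1
  · by_cases hn : n < N
    · rw [fix_S_lt _ _ hn, Finset.singleton_subset_iff]
      by_cases hζq : ζ ∈ q.w
      · have h1 := hr.2.2 n ζ hζq
        rw [fix_S_lt _ _ hn] at h1
        obtain ⟨b, hb⟩ := r.ne n ζ hζ
        have h2 : b = X n ζ := by simpa using h1 hb
        rw [hXX' n hn ζ hζq, ← h2]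
        exact hb
      · have h1 := hX' n hn ζ hζ
        simp only [glue] at h1
        rwa [if_neg (fun h1 => hζq h1.2)] at h1
    · rw [fix_S_ge _ _ (not_lt.1 hn)]
      simp only [glue]
      rw [if_neg (fun h1 => hn h1.1)]

/-- one step of a fusion -/
theorem step (W : Set (Set ι)) (D : Set (Cond ι)) (hD : ∀ p ∈ D, ∀ q ≤ p, q ∈ D) (p : Cond ι)
    (hpW : p.w ∈ W) (N : ℕ) (hd : ∀ r ≤ p, r.w ∈ W → (∀ n ∈ r.a, N ≤ n) →
      ∃ r' ≤ r, r'.w ∈ W ∧ r' ∈ D) :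
    ∃ q, LeN N q p ∧ q.w ∈ W ∧ ∀ X, In q N X → fix q N X ∈ D := by
  classical
  obtain ⟨L, hL, hL'⟩ := exists_stems p N
  have key : ∀ L : List (ℕ → ι → ℕ), (∀ X ∈ L, In p N X) → ∃ q, LeN N q p ∧ q.w ∈ W ∧
      ∀ X ∈ L, ∀ X', In q N X' → (∀ n < N, ∀ ζ ∈ p.w, X' n ζ = X n ζ) → fix q N X' ∈ D := by
    intro L
    induction L with
    | nil => exact fun _ => ⟨p, LeN.refl N p, hpW, by simp⟩
    | cons X L ih =>
      intro hL
      obtain ⟨q1, hq1, hq1W, hq1D⟩ := ih fun Y hY => hL Y (List.mem_cons_of_mem _ hY)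
      have hXp := hL X List.mem_cons_self
      set X1 : ℕ → ι → ℕ := fun n ζ => if ζ ∈ p.w then X n ζ else ch q1 n ζ with hX1
      have hIn : In q1 N X1 := by
        intro n hn ζ hζ
        by_cases h : ζ ∈ p.w
        · simp only [hX1, if_pos h]
          rw [hq1.S n hn ζ h]
          exact hXp n hn ζ h
        · simp only [hX1, if_neg h]
          exact ch_mem q1 n hζ
      obtain ⟨r, hr, hrW, hrD⟩ := hd (fix q1 N X1) ((fix_le hIn).trans hq1.le) hq1W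
        (fun n hn => hn.2)
      have hrq : r ≤ q1 := hr.trans (fix_le hIn)
      have hrN : ∀ n ∈ r.a, N ≤ n := fun n hn => (hr.1 hn).2
      have hg := glue_LeN q1 r N hrq hrN
      refine ⟨glue q1 r N hrq hrN, hg.trans hq1, hrW, ?_⟩
      intro Y hY X' hX' hXY
      rcases List.mem_cons.1 hY with rfl | hY
      · refine hD r hrD _ (fix_glue_le q1 r N X1 hrq hrN hr hX' ?_)
        intro n hn ζ hζ
        by_cases h : ζ ∈ p.w
        · simp only [hX1, if_pos h]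
          exact hXY n hn ζ h
        · refine eq_of_card_le_one (hq1.new n hn ζ hζ h) ?_ (hIn n hn ζ hζ)
          rw [← hg.S n hn ζ hζ]
          exact hX' n hn ζ (hg.le.2.1 hζ)
      · exact hD _ (hq1D Y hY X' (hX'.mono hg.le le_rfl) hXY) _ (fix_mono hg.le)
  obtain ⟨q, hq, hqW, hqD⟩ := key L hL
  refine ⟨q, hq, hqW, fun X hX => ?_⟩
  obtain ⟨Y, hY, hXY⟩ := hL' X (hX.mono hq.le le_rfl)
  exact hqD Y hY X hX hXY

/-- the limit of a fusion sequence -/
theorem fusion (p : ℕ → Cond ι) (N : ℕ → ℕ) (hN : ∀ i, N i < N (i + 1))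
    (hle : ∀ i, LeN (N i) (p (i + 1)) (p i))
    (hinf : ∀ i, ∃ n, N i ≤ n ∧ n < N (i + 1) ∧ n ∈ (p (i + 1)).a)
    (hlg : ∀ i, ∀ ζ ∈ (p i).w, ∀ j, ∃ k, ∀ i' ≥ k, ∀ n, N i' ≤ n → n < N (i' + 1) →
      n ∈ (p (i' + 1)).a → Large j ((p (i' + 1)).S n ζ)) :
    ∃ q : Cond ι, (∀ i, LeN (N i) q (p i)) ∧ q.w = ⋃ i, (p i).w := by
  classical
  have hNge : ∀ i, i ≤ N i := by
    intro i
    induction i with
    | zero => exact Nat.zero_le _
    | succ i ih => exact Nat.succ_le_of_lt (ih.trans_lt (hN i))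
  have hNmono : StrictMono N := strictMono_nat_of_lt_succ hN
  -- the relation between members of the sequence
  have hle' : ∀ i j, i ≤ j → LeN (N i) (p j) (p i) := by
    intro i j hij
    induction hij with
    | refl => exact LeN.refl _ _
    | @step m hm ih => exact ((hle m).mono (hNmono.monotone hm)).trans ih
  have hfst : ∀ ζ, ζ ∈ ⋃ i, (p i).w → ∃ i, ζ ∈ (p i).w := fun ζ h => Set.mem_iUnion.1 h
  set fst : ι → ℕ := fun ζ => if h : ∃ i, ζ ∈ (p i).w then Nat.find h else 0 with hfstdef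
  have hfst1 : ∀ ζ i, ζ ∈ (p i).w → ζ ∈ (p (fst ζ)).w ∧ fst ζ ≤ i := by
    intro ζ i hi
    have h : ∃ i, ζ ∈ (p i).w := ⟨i, hi⟩
    simp only [hfstdef, dif_pos h]
    exact ⟨Nat.find_spec h, Nat.find_min' h hi⟩
  set k : ℕ → ι → ℕ := fun n ζ => max (n + 1) (fst ζ) with hk
  have hkS : ∀ n ζ i, ζ ∈ (p i).w → n < N i → (p (k n ζ)).S n ζ = (p i).S n ζ := by
    intro n ζ i hζ hn
    obtain ⟨h1, h2⟩ := hfst1 ζ i hζ
    -- compare with a common later index
    have h3 := (hle' i (max i (k n ζ)) (le_max_left _ _)).S n hn ζ hζ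
    have h4 : ζ ∈ (p (k n ζ)).w := (hle' _ _ (le_max_right (n + 1) (fst ζ))).le.2.1 h1
    have h5 : n < N (k n ζ) := (Nat.lt_succ_self n).trans_le ((le_max_left _ _).trans (hNge _))
    have h6 := (hle' (k n ζ) (max i (k n ζ)) (le_max_right _ _)).S n h5 ζ h4
    rw [← h3, ← h6]
  have hle'' : ∀ i j, i ≤ j → p j ≤ p i := fun i j hij => (hle' i j hij).le
  have hkmem : ∀ n ζ, ζ ∈ ⋃ i, (p i).w → ζ ∈ (p (k n ζ)).w := by
    intro n ζ hζ
    obtain ⟨i, hi⟩ := hfst ζ hζ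
    exact (hle'' _ _ (le_max_right (n + 1) (fst ζ))).2.1 (hfst1 ζ i hi).1
  have hkN : ∀ n ζ, n < N (k n ζ) := fun n ζ =>
    (Nat.lt_succ_self n).trans_le ((le_max_left _ _).trans (hNge _))
  have ha : ∀ n i, n < N i → (n ∈ ⋂ i, (p i).a ↔ n ∈ (p i).a) := by
    intro n i hn
    refine ⟨fun h => Set.mem_iInter.1 h i, fun h => Set.mem_iInter.2 fun j => ?_⟩
    rcases le_total i j with hij | hij
    · exact (hle' i j hij).a n hn h
    · exact (hle'' j i hij).1 h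
  refine ⟨⟨⋂ i, (p i).a, ⋃ i, (p i).w, fun n ζ => (p (k n ζ)).S n ζ, ?_, ?_, ?_, ?_, ?_, ?_⟩,
    fun i => ⟨⟨?_, ?_, ?_⟩, ?_, ?_, ?_⟩, rfl⟩
  · rw [Set.infinite_iff_exists_gt]
    intro m
    obtain ⟨n, h1, h2, h3⟩ := hinf (m + 1)
    exact ⟨n, (ha n _ h2).2 h3, (Nat.lt_succ_self m).trans_le ((hNge _).trans h1)⟩
  · exact Set.countable_iUnion fun i => (p i).cnt
  · intro n ζ hζ
    exact (p _).ne n ζ (hkmem n ζ hζ)
  · intro n
    refine ((p (n + 1)).fin n).subset ?_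
    rintro ζ ⟨hζ, hc⟩
    have hn : n < N (n + 1) := (Nat.lt_succ_self n).trans_le (hNge _)
    by_cases h : ζ ∈ (p (n + 1)).w
    · refine ⟨h, ?_⟩
      rwa [hkS n ζ (n + 1) h hn] at hc
    · exfalso
      have h1 := (hle' (n + 1) (k n ζ) (le_max_left _ _)).new n hn ζ (hkmem n ζ hζ) h
      omega
  · intro n hn ζ hζ
    refine (p _).off n (fun h => hn ?_) ζ (hkmem n ζ hζ)
    exact (ha n _ (hkN n ζ)).2 h
  · intro ζ hζ j
    obtain ⟨i, hi⟩ := hfst ζ hζ
    obtain ⟨k0, hk0⟩ := hlg i ζ hi j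
    refine ⟨N (max i k0), fun n hn hn' => ?_⟩
    -- the index of the block of `n`
    have hex : ∃ i', n < N (i' + 1) := ⟨n, (Nat.lt_succ_self n).trans_le (hNge _)⟩
    have h1 := Nat.find_spec hex
    set i' := Nat.find hex with hi'
    have h2 : max i k0 ≤ i' := by
      by_contra h
      push Not at h
      have : N (i' + 1) ≤ N (max i k0) := hNmono.monotone h
      omega
    have h3 : N i' ≤ n := by
      rcases Nat.eq_zero_or_pos i' with h | h
      · have : N (max i k0) = N i' := by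
          congr 1
          omega
        omega
      · by_contra h4
        push Not at h4
        have := Nat.find_min hex (m := i' - 1) (by omega)
        rw [Nat.sub_add_cancel h] at this
        exact this h4
    have h4 : ζ ∈ (p (i' + 1)).w := (hle'' i (i' + 1) (by omega)).2.1 hi
    show Large j ((p (k n ζ)).S n ζ)
    rw [hkS n ζ (i' + 1) h4 h1]
    exact hk0 i' (by omega) n h3 h1 (Set.mem_iInter.1 hn _)
  · exact Set.iInter_subset _ i
  · exact Set.subset_iUnion (fun i => (p i).w) i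
  · intro n ζ hζ
    show (p (k n ζ)).S n ζ ⊆ (p i).S n ζ
    have h1 := hkmem n ζ (Set.mem_iUnion.2 ⟨i, hζ⟩)
    have h2 : (p (k n ζ)).S n ζ = (p (max i (k n ζ))).S n ζ :=
      ((hle' _ _ (le_max_right i (k n ζ))).S n (hkN n ζ) ζ h1).symm
    rw [h2]
    exact (hle'' i _ (le_max_left _ _)).2.2 n ζ hζ
  · intro n hn h
    exact (ha n i hn).2 h
  · intro n hn ζ hζ
    exact hkS n ζ i hζ hn
  · intro n hn ζ hζ hζ'
    show ((p (k n ζ)).S n ζ).card ≤ 1
    have h1 := hkmem n ζ hζ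
    have h2 : (p (k n ζ)).S n ζ = (p (max i (k n ζ))).S n ζ :=
      ((hle' _ _ (le_max_right i (k n ζ))).S n (hkN n ζ) ζ h1).symm
    rw [h2]
    exact (hle' i _ (le_max_left _ _)).new n hn ζ ((hle'' _ _ (le_max_right i (k n ζ))).2.1 h1) hζ'

end Pool.Agent.K7.H48.UF
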