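import Pool.Agent.K7.H48.UF.Cond

/-!
# Fusion sequences, and deciding countably many statements
-/

set_option autoImplicit false

namespace Pool.Agent.K7.H48.UF

variable {ι : Type}

theorem exists_block {N : ℕ → ℕ} (h0 : N 0 = 0) (hN : ∀ i, N i < N (i + 1)) (n : ℕ) :
    ∃ i, N i ≤ n ∧ n < N (i + 1) := by
  have hNge : ∀ i, i ≤ N i := by
    intro i
    induction i with
    | zero => exact Nat.zero_le _
    | succ i ih => exact Nat.succ_le_of_lt (ih.trans_lt (hN i))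
  have hex : ∃ i, n < N (i + 1) := ⟨n, (Nat.lt_succ_self n).trans_le (hNge _)⟩
  classical
  refine ⟨Nat.find hex, ?_, Nat.find_spec hex⟩
  rcases Nat.eq_zero_or_pos (Nat.find hex) with h | h
  · rw [h, h0]
    exact Nat.zero_le _
  · by_contra h4
    push Not at h4
    have := Nat.find_min hex (m := Nat.find hex - 1) (by omega)
    rw [Nat.sub_add_cancel h] at this
    exact this h4

theorem fusion_steps (p0 : Cond ι) (I : ℕ → Cond ι → Prop) (h0 : I 0 p0)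
    (Q : ℕ → ℕ → Cond ι → Prop)
    (hstep : ∀ (i N : ℕ) (p : Cond ι), I N p → ∀ F : Finset ι, (↑F : Set ι) ⊆ p.w →
      ∃ n p', N ≤ n ∧ LeN N p' p ∧ n ∈ p'.a ∧ (∀ m, N ≤ m → m < n → m ∉ p'.a) ∧
        (∀ ζ ∈ F, Large i (p'.S n ζ)) ∧ Q i n p' ∧ I (n + 1) p') :
    ∃ q ≤ p0, ∃ nn : ℕ → ℕ, StrictMono nn ∧ (∀ n ∈ q.a, ∃ i, nn i = n) ∧
      ∀ i, nn i ∈ q.a ∧ ∃ p', LeN (nn i + 1) q p' ∧ Q i (nn i) p' := by
  classical
  let St : Type := {s : Cond ι × ℕ × (ι → ℕ) // I s.2.1 s.1 ∧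
    ∀ m, {ζ | ζ ∈ s.1.w ∧ s.2.2 ζ ≤ m}.Finite}
  have hex : ∀ (i : ℕ) (s : St), ∃ (s' : St) (n : ℕ), s'.1.2.1 = n + 1 ∧ s.1.2.1 ≤ n ∧
      LeN s.1.2.1 s'.1.1 s.1.1 ∧ n ∈ s'.1.1.a ∧
      (∀ m, s.1.2.1 ≤ m → m < n → m ∉ s'.1.1.a) ∧
      (∀ ζ ∈ s.1.1.w, s.1.2.2 ζ ≤ i → Large i (s'.1.1.S n ζ)) ∧ Q i n s'.1.1 ∧
      ∀ ζ ∈ s.1.1.w, s'.1.2.2 ζ = s.1.2.2 ζ := by
    rintro i ⟨⟨p, N, h⟩, hI, hfin⟩
    obtain ⟨n, p', h1, h2, h3, h4, h5, h6, h7⟩ := hstep i N p hI (hfin i).toFinset (by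
      intro ζ hζ
      simpa using ((hfin i).mem_toFinset.1 hζ).1)
    obtain ⟨e, he⟩ := Set.countable_iff_exists_injOn.1 p'.cnt
    refine ⟨⟨⟨p', n + 1, fun ζ => if ζ ∈ p.w then h ζ else e ζ⟩, h7, ?_⟩, n, rfl, h1, h2, h3, h4,
      ?_, h6, ?_⟩
    · intro m
      have hfe : {ζ | ζ ∈ p'.w ∧ e ζ ≤ m}.Finite :=
        Set.Finite.of_injOn (t := {k | k ≤ m}) (f := e) (fun ζ hζ => hζ.2)
          (he.mono fun ζ hζ => hζ.1) (Set.finite_le_nat m)
      refine ((hfin m).union hfe).subset ?_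
      rintro ζ ⟨hζ, hm⟩
      by_cases hζp : ζ ∈ p.w
      · left
        simp only [if_pos hζp] at hm
        exact ⟨hζp, hm⟩
      · right
        simp only [if_neg hζp] at hm
        exact ⟨hζ, hm⟩
    · intro ζ hζ hi
      exact h5 ζ ((hfin i).mem_toFinset.2 ⟨hζ, hi⟩)
    · intro ζ hζ
      exact if_pos hζ
  choose nxt lev hnxt using hex
  obtain ⟨e0, he0⟩ := Set.countable_iff_exists_injOn.1 p0.cnt
  let s0 : St := ⟨⟨p0, 0, e0⟩, h0, fun m =>
    Set.Finite.of_injOn (t := {k | k ≤ m}) (f := e0) (fun ζ hζ => hζ.2)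
      (he0.mono fun ζ hζ => hζ.1) (Set.finite_le_nat m)⟩
  let sq : ℕ → St := fun i => Nat.rec s0 (fun i s => nxt i s) i
  let p : ℕ → Cond ι := fun i => (sq i).1.1
  let N : ℕ → ℕ := fun i => (sq i).1.2.1
  let h : ℕ → ι → ℕ := fun i => (sq i).1.2.2
  let nn : ℕ → ℕ := fun i => lev i (sq i)
  have e1 : ∀ i, N (i + 1) = nn i + 1 := fun i => (hnxt i (sq i)).1
  have e2 : ∀ i, N i ≤ nn i := fun i => (hnxt i (sq i)).2.1
  have e3 : ∀ i, LeN (N i) (p (i + 1)) (p i) := fun i => (hnxt i (sq i)).2.2.1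
  have e4 : ∀ i, nn i ∈ (p (i + 1)).a := fun i => (hnxt i (sq i)).2.2.2.1
  have e5 : ∀ i m, N i ≤ m → m < nn i → m ∉ (p (i + 1)).a := fun i => (hnxt i (sq i)).2.2.2.2.1
  have e6 : ∀ i, ∀ ζ ∈ (p i).w, h i ζ ≤ i → Large i ((p (i + 1)).S (nn i) ζ) :=
    fun i => (hnxt i (sq i)).2.2.2.2.2.1
  have e7 : ∀ i, Q i (nn i) (p (i + 1)) := fun i => (hnxt i (sq i)).2.2.2.2.2.2.1
  have e8 : ∀ i, ∀ ζ ∈ (p i).w, h (i + 1) ζ = h i ζ := fun i => (hnxt i (sq i)).2.2.2.2.2.2.2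
  have hN0 : N 0 = 0 := rfl
  have hN : ∀ i, N i < N (i + 1) := fun i => by rw [e1]; exact Nat.lt_succ_of_le (e2 i)
  have hw : ∀ i j, i ≤ j → (p i).w ⊆ (p j).w := by
    intro i j hij
    induction hij with
    | refl => exact Set.Subset.rfl
    | step _ ih => exact ih.trans (e3 _).le.2.1
  have hh : ∀ i j, i ≤ j → ∀ ζ ∈ (p i).w, h j ζ = h i ζ := by
    intro i j hij ζ hζ
    induction hij with
    | refl => rfl
    | @step m hm ih => rw [e8 m ζ (hw i m hm hζ), ih]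
  obtain ⟨q, hq, hqw⟩ := fusion p N hN e3 (fun i => ⟨nn i, e2 i, by rw [e1]; omega, e4 i⟩) (by
    intro i ζ hζ j
    refine ⟨max (max j i) (h i ζ), fun i' hi' n hn hn' hna => ?_⟩
    have hn1 : n = nn i' := by
      rw [e1] at hn'
      by_contra hne
      exact e5 i' n hn (by omega) hna
    subst hn1
    have h1 : i ≤ i' := by omega
    have h2 := e6 i' ζ (hw i i' h1 hζ) (by rw [hh i i' h1 ζ hζ]; omega)
    exact h2.le (by omega))
  refine ⟨q, (hq 0).le, nn, ?_, ?_, ?_⟩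
  · refine strictMono_nat_of_lt_succ fun i => ?_
    have := e2 (i + 1)
    rw [e1] at this
    omega
  · intro n hn
    obtain ⟨i, h1, h2⟩ := exists_block hN0 hN n
    refine ⟨i, ?_⟩
    rw [e1] at h2
    by_contra hne
    exact e5 i n h1 (by omega) ((hq (i + 1)).le.1 hn)
  · intro i
    have h1 := hq (i + 1)
    rw [e1] at h1
    exact ⟨h1.a _ (Nat.lt_succ_self _) (e4 i), p (i + 1), h1, e7 i⟩

/-- the levels between `N` and `n` are removed -/
noncomputable def trim (p : Cond ι) (N n : ℕ) : Cond ι where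
  a := p.a ∩ {m | m < N ∨ n ≤ m}
  w := p.w
  S m ζ := if N ≤ m ∧ m < n then {ch p m ζ} else p.S m ζ
  inf := by
    have h := p.inf.sdiff (Set.finite_lt_nat n)
    refine h.mono fun m hm => ⟨hm.1, Or.inr ?_⟩
    simpa using hm.2
  cnt := p.cnt
  ne m ζ hζ := by
    split_ifs
    · exact Finset.singleton_nonempty _
    · exact p.ne m ζ hζ
  fin m := by
    refine (p.fin m).subset ?_
    rintro ζ ⟨hζ, h⟩
    refine ⟨hζ, ?_⟩
    split_ifs at h
    · simp at h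
    · exact h
  off m hm ζ hζ := by
    split_ifs with h
    · simp
    · refine p.off m (fun hm' => hm ⟨hm', ?_⟩) ζ hζ
      by_contra hc
      simp only [Set.mem_ofPred_eq, not_or, not_lt, not_le] at hc
      exact h hc
  lg ζ hζ j := by
    obtain ⟨M, hM⟩ := p.lg ζ hζ j
    refine ⟨M, fun m hm hMm => ?_⟩
    rw [if_neg]
    · exact hM m hm.1 hMm
    · rintro ⟨h1, h2⟩
      rcases hm.2 with h | h
      · omega
      · omega

theorem trim_S {p : Cond ι} {N n m : ℕ} (h : m < N ∨ n ≤ m) (ζ : ι) :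
    (trim p N n).S m ζ = p.S m ζ := by
  simp only [trim]
  rw [if_neg (by omega)]

theorem trim_LeN (p : Cond ι) (N n : ℕ) : LeN N (trim p N n) p := by
  refine ⟨⟨fun m hm => hm.1, Set.Subset.rfl, fun m ζ hζ => ?_⟩, fun m hm hp => ⟨hp, Or.inl hm⟩,
    fun m hm ζ _ => trim_S (Or.inl hm) ζ, fun m _ ζ hζ hζ' => absurd hζ hζ'⟩
  simp only [trim]
  split_ifs
  · simpa using ch_mem p m hζ
  · exact Finset.Subset.rfl

/-- a level with large sets -/
theorem exists_level (p : Cond ι) (N j : ℕ) (F : Finset ι) (hF : (↑F : Set ι) ⊆ p.w) :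
    ∃ n ∈ p.a, N ≤ n ∧ ∀ ζ ∈ F, Large j (p.S n ζ) := by
  classical
  have h1 : ∃ M, ∀ ζ ∈ F, ∀ n ∈ p.a, M ≤ n → Large j (p.S n ζ) := by
    induction F using Finset.induction_on with
    | empty => exact ⟨0, by simp⟩
    | insert ζ F _ ih =>
      obtain ⟨M, hM⟩ := ih fun x hx => hF (by simp at hx ⊢; exact Or.inr hx)
      obtain ⟨M', hM'⟩ := p.lg ζ (hF (by simp)) j
      refine ⟨max M M', fun x hx n hn hn' => ?_⟩
      rcases Finset.mem_insert.1 hx with rfl | hx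
      · exact hM' n hn ((le_max_right _ _).trans hn')
      · exact hM x hx n hn ((le_max_left _ _).trans hn')
  obtain ⟨M, hM⟩ := h1
  obtain ⟨n, hn, hn'⟩ := p.inf.exists_gt (max M N)
  exact ⟨n, hn, (le_max_right _ _).trans hn'.le, fun ζ hζ =>
    hM ζ hζ n hn ((le_max_left _ _).trans hn'.le)⟩

/-- Below `p` there is a condition `q` which decides the `n`-th question at its level `n`,
for each of its levels `n`. -/
theorem master (D : ℕ → Set (Cond ι)) (hD : ∀ n, ∀ p ∈ D n, ∀ q ≤ p, q ∈ D n) (p0 : Cond ι)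
    (hd : ∀ n, ∀ r ≤ p0, ∃ r' ≤ r, r' ∈ D n) :
    ∃ q ≤ p0, ∀ n ∈ q.a, ∀ X, In q (n + 1) X → fix q (n + 1) X ∈ D n := by
  obtain ⟨q, hq, nn, _, h2, h3⟩ := fusion_steps p0 (fun _ p => p ≤ p0) le_rfl
    (fun _ n p' => ∀ X, In p' (n + 1) X → fix p' (n + 1) X ∈ D n) (by
      intro i N p hp F hF
      obtain ⟨n, hn, hNn, hL⟩ := exists_level p N i F hF
      have ht := trim_LeN p N n
      obtain ⟨p', h1, _, h3⟩ := step Set.univ (D n) (hD n) (trim p N n) trivial (n + 1)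
        (fun r hr _ _ => by
          obtain ⟨r', h1, h2⟩ := hd n r (hr.trans (ht.le.trans hp))
          exact ⟨r', h1, trivial, h2⟩)
      refine ⟨n, p', hNn, (h1.mono (by omega)).trans ht, h1.a n (Nat.lt_succ_self n)
        ⟨hn, Or.inr le_rfl⟩, ?_, ?_, h3, (h1.le.trans ht.le).trans hp⟩
      · intro m hm hm' hma
        rcases (h1.le.1 hma).2 with h | h
        · exact absurd hm (not_le.2 h)
        · exact absurd hm' (not_lt.2 h)
      · intro ζ hζ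
        rw [h1.S n (Nat.lt_succ_self n) ζ (hF hζ), trim_S (Or.inr le_rfl)]
        exact hL ζ hζ)
  refine ⟨q, hq, fun n hn X hX => ?_⟩
  obtain ⟨i, rfl⟩ := h2 n hn
  obtain ⟨_, p', hp', hQ⟩ := h3 i
  exact hD _ _ (hQ X (hX.mono hp'.le le_rfl)) _ (fix_mono hp'.le)

end Pool.Agent.K7.H48.UF
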