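import Mathlib

/-!
# Large finite sets of numbers for a colouring of pairs

`r` is a symmetric colouring of pairs of numbers; a finite set is `j`-large if it contains a copy
of a certain finite coloured structure `B j`.
-/

set_option autoImplicit false

namespace Pool.Agent.K7.H48.UF

open Finset

/-- the colour of two letters -/
def c0 (a b : ℕ) : ℕ := (a - b) + (b - a) - 1

theorem c0_comm (a b : ℕ) : c0 a b = c0 b a := by simp [c0, add_comm]

theorem c0_zero (k : ℕ) : c0 0 (k + 1) = k := by simp [c0]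

/-- the colour of two words: the colour of the first letters in which they differ -/
def r0 : List ℕ → List ℕ → ℕ
  | a :: s, b :: t => if a = b then r0 s t else c0 a b
  | _, _ => 0

theorem r0_comm : ∀ s t : List ℕ, r0 s t = r0 t s
  | [], [] => rfl
  | [], _ :: _ => rfl
  | _ :: _, [] => rfl
  | a :: s, b :: t => by
    simp only [r0]
    rw [r0_comm s t, c0_comm a b]
    simp [eq_comm]

theorem r0_cons (a : ℕ) (s t : List ℕ) : r0 (a :: s) (a :: t) = r0 s t := by simp [r0]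

theorem r0_cons_ne {a b : ℕ} (h : a ≠ b) (s t : List ℕ) : r0 (a :: s) (b :: t) = c0 a b := by
  simp [r0, h]

theorem r0_app_same (s t t' : List ℕ) : r0 (s ++ t) (s ++ t') = r0 t t' := by
  induction s with
  | nil => rfl
  | cons a s ih => simp [r0, ih]

theorem r0_app : ∀ (s s' t t' : List ℕ), s.length = s'.length → s ≠ s' →
    r0 (s ++ t) (s' ++ t') = r0 s s'
  | [], [], _, _, _, h => absurd rfl h
  | [], _ :: _, _, _, h, _ => by simp at h
  | _ :: _, [], _, _, h, _ => by simp at h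
  | a :: s, b :: s', t, t', h, hne => by
    simp only [List.cons_append, r0]
    split_ifs with hab
    · subst hab
      refine r0_app s s' t t' (by simpa using h) ?_
      rintro rfl
      exact hne rfl
    · rfl

/-- the length of the words in `B j` -/
def hB : ℕ → ℕ
  | 0 => 0
  | j + 1 => (hB j + 1) + (hB j + 1)

/-- membership in the set `B j` of words -/
def InB : ℕ → List ℕ → Prop
  | 0, u => u = []
  | j + 1, u => ∃ p y q z, p ≤ j + 1 ∧ q ≤ j + 1 ∧ InB j y ∧ InB j z ∧ u = (p :: y) ++ (q :: z)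

theorem InB.length : ∀ {j : ℕ} {u : List ℕ}, InB j u → u.length = hB j
  | 0, u, h => by
    have : u = [] := h
    subst this
    rfl
  | j + 1, u, h => by
    obtain ⟨p, y, q, z, _, _, hy, hz, rfl⟩ := h
    simp [hB, hy.length, hz.length]
    omega

/-- the finite set `B j` -/
def BB : ℕ → Finset (List ℕ)
  | 0 => {[]}
  | j + 1 => (((range (j + 2)) ×ˢ BB j) ×ˢ ((range (j + 2)) ×ˢ BB j)).image
      fun x => (x.1.1 :: x.1.2) ++ (x.2.1 :: x.2.2)

theorem mem_BB : ∀ {j : ℕ} {u : List ℕ}, u ∈ BB j ↔ InB j u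
  | 0, u => by simp [BB, InB]
  | j + 1, u => by
    simp only [BB, InB, mem_image, mem_product, mem_range]
    constructor
    · rintro ⟨⟨⟨p, y⟩, ⟨q, z⟩⟩, ⟨⟨hp, hy⟩, ⟨hq, hz⟩⟩, rfl⟩
      exact ⟨p, y, q, z, by simpa [Nat.lt_succ_iff] using hp, by simpa [Nat.lt_succ_iff] using hq,
        mem_BB.1 hy, mem_BB.1 hz, rfl⟩
    · rintro ⟨p, y, q, z, hp, hq, hy, hz, rfl⟩
      exact ⟨⟨⟨p, y⟩, ⟨q, z⟩⟩, ⟨⟨Nat.lt_succ_of_le hp, mem_BB.2 hy⟩,
        ⟨Nat.lt_succ_of_le hq, mem_BB.2 hz⟩⟩, rfl⟩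

theorem BB_nonempty : ∀ j, ∃ u, InB j u
  | 0 => ⟨[], rfl⟩
  | j + 1 => by
    obtain ⟨u, hu⟩ := BB_nonempty j
    exact ⟨_, 0, u, 0, u, Nat.zero_le _, Nat.zero_le _, hu, hu, rfl⟩

/-- the numbering of words -/
noncomputable def φ : ℕ ≃ List ℕ := (Denumerable.eqv (List ℕ)).symm

/-- the colouring of pairs of numbers -/
noncomputable def r (a b : ℕ) : ℕ := r0 (φ a) (φ b)

theorem r_comm (a b : ℕ) : r a b = r b a := r0_comm _ _

/-- `s` contains a copy of `B j` -/
def Large (j : ℕ) (s : Finset ℕ) : Prop :=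
  ∃ f : List ℕ → ℕ, (∀ u, InB j u → f u ∈ s) ∧
    ∀ u v, InB j u → InB j v → u ≠ v → f u ≠ f v ∧ r (f u) (f v) = r0 u v

theorem Large.mono {j : ℕ} {s t : Finset ℕ} (h : Large j s) (hst : s ⊆ t) : Large j t := by
  obtain ⟨f, hf, hr⟩ := h
  exact ⟨f, fun u hu => hst (hf u hu), hr⟩

theorem Large.nonempty {j : ℕ} {s : Finset ℕ} (h : Large j s) : s.Nonempty := by
  obtain ⟨f, hf, _⟩ := h
  obtain ⟨u, hu⟩ := BB_nonempty j
  exact ⟨f u, hf u hu⟩

theorem exists_large (j : ℕ) : ∃ s, Large j s := by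
  classical
  refine ⟨(BB j).image φ.symm, φ.symm, fun u hu => mem_image_of_mem _ (mem_BB.2 hu), ?_⟩
  intro u v _ _ hne
  exact ⟨fun h => hne (φ.symm.injective h), by simp [r]⟩

/-- words of `B (j + 1)` from words of `B j` -/
theorem InB.mk {j p q : ℕ} {y z : List ℕ} (hp : p ≤ j + 1) (hq : q ≤ j + 1) (hy : InB j y)
    (hz : InB j z) : InB (j + 1) ((p :: y) ++ (q :: z)) :=
  ⟨p, y, q, z, hp, hq, hy, hz, rfl⟩

theorem r0_mk_same {p q q' : ℕ} {y z z' : List ℕ} :
    r0 ((p :: y) ++ (q :: z)) ((p :: y) ++ (q' :: z')) = r0 (q :: z) (q' :: z') :=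
  r0_app_same _ _ _

theorem r0_mk {j p p' q q' : ℕ} {y y' z z' : List ℕ} (hy : InB j y) (hy' : InB j y')
    (hne : p :: y ≠ p' :: y') :
    r0 ((p :: y) ++ (q :: z)) ((p' :: y') ++ (q' :: z')) = r0 (p :: y) (p' :: y') :=
  r0_app _ _ _ _ (by simp [hy.length, hy'.length]) hne

theorem Large.split {j : ℕ} {s : Finset ℕ} (h : Large (j + 1) s) (P : ℕ → Prop) :
    (∃ t ⊆ s, Large j t ∧ ∀ a ∈ t, P a) ∨ ∃ t ⊆ s, Large j t ∧ ∀ a ∈ t, ¬ P a := by
  classical
  obtain ⟨f, hf, hr⟩ := h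
  by_cases hA : ∃ p y, p ≤ j + 1 ∧ InB j y ∧ ∀ q z, q ≤ j + 1 → InB j z →
      P (f ((p :: y) ++ (q :: z)))
  · left
    obtain ⟨p, y, hp, hy, hP⟩ := hA
    refine ⟨s.filter P, filter_subset _ _, ⟨fun w => f ((p :: y) ++ (0 :: w)), ?_, ?_⟩,
      fun a ha => (mem_filter.1 ha).2⟩
    · intro w hw
      exact mem_filter.2 ⟨hf _ (InB.mk hp (Nat.zero_le _) hy hw), hP 0 w (Nat.zero_le _) hw⟩
    · intro u v hu hv hne
      have h1 := hr _ _ (InB.mk hp (Nat.zero_le _) hy hu) (InB.mk hp (Nat.zero_le _) hy hv) (by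
        intro h
        exact hne (by simpa using h))
      refine ⟨h1.1, ?_⟩
      rw [h1.2, r0_mk_same, r0_cons]
  · right
    push Not at hA
    have h0 : ∀ w, ∃ q z, InB j w → q ≤ j + 1 ∧ InB j z ∧ ¬ P (f ((0 :: w) ++ (q :: z))) := by
      intro w
      by_cases hw : InB j w
      · obtain ⟨q, z, hq, hz, hP⟩ := hA 0 w (Nat.zero_le _) hw
        exact ⟨q, z, fun _ => ⟨hq, hz, hP⟩⟩
      · exact ⟨0, [], fun h => absurd h hw⟩
    choose q z hqz using h0
    refine ⟨s.filter fun a => ¬ P a, filter_subset _ _,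
      ⟨fun w => f ((0 :: w) ++ (q w :: z w)), ?_, ?_⟩, fun a ha => (mem_filter.1 ha).2⟩
    · intro w hw
      obtain ⟨h1, h2, h3⟩ := hqz w hw
      exact mem_filter.2 ⟨hf _ (InB.mk (Nat.zero_le _) h1 hw h2), h3⟩
    · intro u v hu hv hne
      obtain ⟨h1, h2, h3⟩ := hqz u hu
      obtain ⟨h1', h2', h3'⟩ := hqz v hv
      have hne' : (0 :: u : List ℕ) ≠ 0 :: v := by simpa using hne
      have h4 := hr _ _ (InB.mk (Nat.zero_le _) h1 hu h2) (InB.mk (Nat.zero_le _) h1' hv h2') (by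
        intro h
        refine hne' ?_
        exact (List.append_inj h (by simp [hu.length, hv.length])).1)
      refine ⟨h4.1, ?_⟩
      rw [h4.2, r0_mk hu hv hne', r0_cons]

theorem Large.pred {j : ℕ} {s : Finset ℕ} (h : Large (j + 1) s) : Large j s := by
  rcases h.split (fun _ => True) with ⟨t, ht, h1, _⟩ | ⟨t, ht, h1, _⟩
  · exact h1.mono ht
  · exact h1.mono ht

theorem Large.le {i j : ℕ} {s : Finset ℕ} (h : Large j s) (hij : i ≤ j) : Large i s := by
  induction hij with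
  | refl => exact h
  | step _ ih => exact ih h.pred

/-- colours between two large parts -/
theorem Large.pair {j k : ℕ} {s : Finset ℕ} (h : Large (j + 1) s) (hk : k ≤ j) :
    ∃ s1 ⊆ s, ∃ s2 ⊆ s, Large j s1 ∧ Large j s2 ∧ ∀ a ∈ s1, ∀ b ∈ s2, a ≠ b ∧ r a b = k := by
  classical
  obtain ⟨f, hf, hr⟩ := h
  obtain ⟨z, hz⟩ := BB_nonempty j
  have hk' : k + 1 ≤ j + 1 := Nat.succ_le_succ hk
  refine ⟨(BB j).image fun w => f ((0 :: w) ++ (0 :: z)), ?_,
    (BB j).image fun w => f (((k + 1) :: w) ++ (0 :: z)), ?_, ?_, ?_, ?_⟩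
  · intro a ha
    obtain ⟨w, hw, rfl⟩ := mem_image.1 ha
    exact hf _ (InB.mk (Nat.zero_le _) (Nat.zero_le _) (mem_BB.1 hw) hz)
  · intro a ha
    obtain ⟨w, hw, rfl⟩ := mem_image.1 ha
    exact hf _ (InB.mk hk' (Nat.zero_le _) (mem_BB.1 hw) hz)
  · refine ⟨fun w => f ((0 :: w) ++ (0 :: z)), fun w hw => mem_image_of_mem _ (mem_BB.2 hw), ?_⟩
    intro u v hu hv hne
    have hne' : (0 :: u : List ℕ) ≠ 0 :: v := by simpa using hne
    have h4 := hr _ _ (InB.mk (Nat.zero_le _) (Nat.zero_le _) hu hz)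
      (InB.mk (Nat.zero_le _) (Nat.zero_le _) hv hz) (by simpa using hne)
    exact ⟨h4.1, by rw [h4.2, r0_mk hu hv hne', r0_cons]⟩
  · refine ⟨fun w => f (((k + 1) :: w) ++ (0 :: z)), fun w hw => mem_image_of_mem _ (mem_BB.2 hw), ?_⟩
    intro u v hu hv hne
    have hne' : ((k + 1) :: u : List ℕ) ≠ (k + 1) :: v := by simpa using hne
    have h4 := hr _ _ (InB.mk hk' (Nat.zero_le _) hu hz)
      (InB.mk hk' (Nat.zero_le _) hv hz) (by simpa using hne)
    exact ⟨h4.1, by rw [h4.2, r0_mk hu hv hne', r0_cons]⟩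
  · intro a ha b hb
    obtain ⟨u, hu, rfl⟩ := mem_image.1 ha
    obtain ⟨v, hv, rfl⟩ := mem_image.1 hb
    have hu' := mem_BB.1 hu
    have hv' := mem_BB.1 hv
    have hne' : (0 :: u : List ℕ) ≠ (k + 1) :: v := by simp
    have h4 := hr _ _ (InB.mk (Nat.zero_le _) (Nat.zero_le _) hu' hz)
      (InB.mk hk' (Nat.zero_le _) hv' hz) (by simp)
    refine ⟨h4.1, ?_⟩
    rw [h4.2, r0_mk hu' hv' hne', r0_cons_ne (by simp), c0_zero]

/-- a large set contains one of bounded size -/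
theorem Large.small {j : ℕ} {s : Finset ℕ} (h : Large j s) :
    ∃ t ⊆ s, Large j t ∧ t.card ≤ (BB j).card := by
  classical
  obtain ⟨f, hf, hr⟩ := h
  refine ⟨(BB j).image f, ?_, ⟨f, fun u hu => mem_image_of_mem _ (mem_BB.2 hu), hr⟩, card_image_le⟩
  intro a ha
  obtain ⟨w, hw, rfl⟩ := mem_image.1 ha
  exact hf _ (mem_BB.1 hw)

/-- `m` colourings of one set -/
theorem Large.homog (j : ℕ) : ∀ (L : List (ℕ → Prop)) (m : ℕ), L.length ≤ m →
    ∀ s : Finset ℕ, Large (j + m) s →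
    ∃ t ⊆ s, Large j t ∧ ∀ χ ∈ L, (∀ a ∈ t, χ a) ∨ ∀ a ∈ t, ¬ χ a := by
  intro L
  induction L with
  | nil =>
    intro m _ s hs
    exact ⟨s, Subset.rfl, hs.le (Nat.le_add_right _ _), fun χ hχ => absurd hχ List.not_mem_nil⟩
  | cons χ L ih =>
    intro m hm s hs
    obtain ⟨m, rfl⟩ : ∃ m', m = m' + 1 := ⟨m - 1, by simp at hm; omega⟩
    have hL : L.length ≤ m := by simpa using hm
    have hs' : Large ((j + m) + 1) s := hs
    rcases hs'.split χ with ⟨t, ht, h1, h2⟩ | ⟨t, ht, h1, h2⟩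
    · obtain ⟨t', ht', h3, h4⟩ := ih m hL t h1
      refine ⟨t', ht'.trans ht, h3, fun χ' hχ' => ?_⟩
      rcases List.mem_cons.1 hχ' with rfl | h
      · exact Or.inl fun a ha => h2 a (ht' ha)
      · exact h4 χ' h
    · obtain ⟨t', ht', h3, h4⟩ := ih m hL t h1
      refine ⟨t', ht'.trans ht, h3, fun χ' hχ' => ?_⟩
      rcases List.mem_cons.1 hχ' with rfl | h
      · exact Or.inr fun a ha => h2 a (ht' ha)
      · exact h4 χ' h

section box

variable {ι : Type}

/-- the functions which are equal to `g` off `F` and have values in `T ζ` for `ζ ∈ F` -/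
def InBox (F : Finset ι) (T : ι → Finset ℕ) (g f : ι → ℕ) : Prop :=
  (∀ ζ ∈ F, f ζ ∈ T ζ) ∧ ∀ ζ ∉ F, f ζ = g ζ

theorem InBox.mono {F : Finset ι} {T T' : ι → Finset ℕ} {g f : ι → ℕ} (h : InBox F T g f)
    (hT : ∀ ζ ∈ F, T ζ ⊆ T' ζ) : InBox F T' g f :=
  ⟨fun ζ hζ => hT ζ hζ (h.1 ζ hζ), h.2⟩

theorem finite_box (F : Finset ι) (T : ι → Finset ℕ) (g : ι → ℕ) : {f | InBox F T g f}.Finite := by
  classical
  refine ((F.pi T).image fun h ζ => if hζ : ζ ∈ F then h ζ hζ else g ζ).finite_toSet.subset ?_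
  intro f hf
  simp only [coe_image, Set.mem_image, mem_coe, mem_pi]
  refine ⟨fun ζ _ => f ζ, fun ζ hζ => hf.1 ζ hζ, ?_⟩
  funext ζ
  by_cases hζ : ζ ∈ F
  · simp [hζ]
  · simp [hζ, hf.2 ζ hζ]

/-- colourings of products of large sets: homogeneous products of large sets -/
theorem box_homog [DecidableEq ι] (F : Finset ι) : ∀ m j : ℕ, ∃ J, ∀ (T : ι → Finset ℕ) (g : ι → ℕ),
    (∀ ζ ∈ F, Large J (T ζ)) → ∀ L : List ((ι → ℕ) → Prop), L.length ≤ m →
    ∃ T' : ι → Finset ℕ, (∀ ζ ∈ F, T' ζ ⊆ T ζ) ∧ (∀ ζ ∈ F, Large j (T' ζ)) ∧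
      ∀ χ ∈ L, (∀ f, InBox F T' g f → χ f) ∨ ∀ f, InBox F T' g f → ¬ χ f := by
  classical
  induction F using Finset.induction_on with
  | empty =>
    intro m j
    refine ⟨0, fun T g _ L _ => ⟨T, by simp, by simp, fun χ _ => ?_⟩⟩
    by_cases h : χ g
    · left
      intro f hf
      have : f = g := funext fun ζ => hf.2 ζ (by simp)
      rwa [this]
    · right
      intro f hf
      have : f = g := funext fun ζ => hf.2 ζ (by simp)
      rwa [this]
  | insert ζ0 F hζ0 ih =>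
    intro m j
    obtain ⟨J', hJ'⟩ := ih (m * (BB (j + m)).card) j
    refine ⟨max (j + m) J', fun T g hT L hL => ?_⟩
    obtain ⟨s0, hs0, hs0l, hs0c⟩ := ((hT ζ0 (mem_insert_self _ _)).le (le_max_left _ _)).small
    obtain ⟨T1, hT1, hT1l, hT1c⟩ := hJ' T g
      (fun ζ hζ => (hT ζ (mem_insert_of_mem hζ)).le (le_max_right _ _))
      (L.flatMap fun χ => s0.toList.map fun v f => χ (Function.update f ζ0 v)) (by
        rw [List.length_flatMap]
        have : (L.map fun χ : (ι → ℕ) → Prop => (s0.toList.map fun v f =>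
            χ (Function.update f ζ0 v)).length) = L.map fun _ => s0.card := by
          simp
        rw [this]
        simp only [List.map_const', List.sum_replicate, smul_eq_mul]
        exact Nat.mul_le_mul hL hs0c)
    -- the colourings of `s0`
    obtain ⟨t, ht, htl, htc⟩ := Large.homog j
      (L.map fun χ v => ∀ f, InBox F T1 g f → χ (Function.update f ζ0 v)) m (by simpa using hL) s0
      hs0l
    refine ⟨fun ζ => if ζ = ζ0 then t else T1 ζ, ?_, ?_, ?_⟩
    · intro ζ hζ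
      by_cases h : ζ = ζ0
      · subst h
        simpa using ht.trans hs0
      · rcases mem_insert.1 hζ with h' | h'
        · exact absurd h' h
        · simpa [h] using hT1 ζ h'
    · intro ζ hζ
      by_cases h : ζ = ζ0
      · subst h
        simpa using htl
      · rcases mem_insert.1 hζ with h' | h'
        · exact absurd h' h
        · simpa [h] using hT1l ζ h'
    · intro χ hχ
      -- decompose an element of the box
      have hdec : ∀ f, InBox (insert ζ0 F) (fun ζ => if ζ = ζ0 then t else T1 ζ) g f →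
          f ζ0 ∈ t ∧ InBox F T1 g (Function.update f ζ0 (g ζ0)) ∧
          f = Function.update (Function.update f ζ0 (g ζ0)) ζ0 (f ζ0) := by
        intro f hf
        refine ⟨by simpa using hf.1 ζ0 (mem_insert_self _ _), ⟨?_, ?_⟩, by simp⟩
        · intro ζ hζ
          have hne : ζ ≠ ζ0 := fun h => hζ0 (h ▸ hζ)
          rw [Function.update_of_ne hne]
          simpa [hne] using hf.1 ζ (mem_insert_of_mem hζ)
        · intro ζ hζ
          by_cases h : ζ = ζ0
          · subst h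
            simp
          · rw [Function.update_of_ne h]
            exact hf.2 ζ (by simp [h, hζ])
      have hcase := htc _ (List.mem_map.2 ⟨χ, hχ, rfl⟩)
      rcases hcase with h | h
      · left
        intro f hf
        obtain ⟨h1, h2, h3⟩ := hdec f hf
        rw [h3]
        exact h _ h1 _ h2
      · right
        intro f hf hχf
        obtain ⟨h1, h2, h3⟩ := hdec f hf
        have h4 := hT1c (fun f' => χ (Function.update f' ζ0 (f ζ0))) (List.mem_flatMap.2
          ⟨χ, hχ, List.mem_map.2 ⟨f ζ0, Finset.mem_toList.2 (ht h1), rfl⟩⟩)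
        rcases h4 with h4 | h4
        · exact h _ h1 h4
        · refine h4 _ h2 ?_
          rw [← h3]
          exact hχf

end box

end Pool.Agent.K7.H48.UF
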