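import Pool.Agent.Helper669.Forcing

/-!
# Statements about ultrafilters on `ℕ` and families of functions in the extension

A sentence of the forcing language is represented by the set of the conditions which force it,
see `Pool.Agent.Helper669.Forcing`. A name for a subset of `ℕ` is a map `A : ℕ → Set P`: the
number `n` belongs to the named set iff the generic filter meets `A n`. A name for a family of
subsets of `ℕ` is a map `U` from the names for subsets of `ℕ` to sets of conditions: its members
are the sets named by those `A` for which the generic filter meets `U A`.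
-/

set_option autoImplicit false

namespace Pool.Agent.K7.H48.UF

open Pool.Agent.Helper669.Forcing

section

variable {P : Type} [Preorder P]

/-- `φ` and `ψ` are equivalent. -/
def fiff (φ ψ : Set P) : Set P := fand (fimp φ ψ) (fimp ψ φ)

/-- `A` and `B` name the same subset of `ℕ`. -/
def SameSet (A B : ℕ → Set P) : Set P := fall fun n => fiff (meets (A n)) (meets (B n))

/-- The subset of `ℕ` named by `A` belongs to the family named by `U`. -/
def Mem (U : (ℕ → Set P) → Set P) (A : ℕ → Set P) : Set P :=
  fex fun B => fand (meets (U B)) (SameSet A B)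

/-- The family named by `U` is a nonprincipal ultrafilter on `ℕ`: it is closed under supersets
and under intersections of two members, for each subset of `ℕ` exactly one of the set and its
complement is a member, and all the sets `{n | m < n}` are members. -/
def IsUltra (U : (ℕ → Set P) → Set P) : Set P :=
  fand
    (fall fun A : ℕ → Set P => fall fun B : ℕ → Set P =>
      fimp (fand (Mem U A) (fall fun n => fimp (meets (A n)) (meets (B n)))) (Mem U B))
    (fand
      (fall fun A : ℕ → Set P => fall fun B : ℕ → Set P =>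
        fimp (fand (Mem U A) (Mem U B)) (Mem U fun n => fand (meets (A n)) (meets (B n))))
      (fand
        (fall fun A : ℕ → Set P => fiff (Mem U fun n => fnot (meets (A n))) (fnot (Mem U A)))
        (fall fun m : ℕ => Mem U fun n => fground (m < n))))

/-- For no `k` are, for `U`-almost all `n`, the values `x n` and `y n` different and
`r (x n) (y n) = k`. -/
def NoColour (U : (ℕ → Set P) → Set P) (r : ℕ → ℕ → ℕ) (x y : ℕ → ℕ → Set P) : Set P :=
  fall fun k : ℕ => fnot (Mem U fun n => fex fun i : ℕ => fex fun j : ℕ =>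
    fand (fand (meets (x n i)) (meets (y n j))) (fground (i ≠ j ∧ r i j = k)))

/-- For `U`-almost all `n`, the pair of the values of `g` and `h` at `n` belongs to the relation
named by `C`. -/
def Rel (U : (ℕ → Set P) → Set P) (C : ℕ → ℕ → Set P) (g h : ℕ → ℕ → Set P) : Set P :=
  Mem U fun n => fex fun i : ℕ => fex fun j : ℕ =>
    fand (fand (meets (g n i)) (meets (h n j))) (meets (C i j))

/-- In the extension there are a nonprincipal ultrafilter `U` on `ℕ` and functions `x ξ` from `ℕ`
to `ℕ`, for `ξ : ι`, such that for no functions `g ξ` from `ℕ` to `ℕ` and no binary relation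
`C` on `ℕ` the following holds for all `ξ, η`: for no `k` are, for `U`-almost all `n`, `x ξ n`
and `x η n` different and `r (x ξ n) (x η n) = k`, if and only if `C (g ξ n) (g η n)` for
`U`-almost all `n`. -/
def Unrep (P : Type) [Preorder P] (ι : Type) (r : ℕ → ℕ → ℕ) : Set P :=
  fex fun U : (ℕ → Set P) → Set P => fex fun x : ι → ℕ → ℕ → Set P =>
    fand (fand (IsUltra U) (fall fun ξ => IsFun (x ξ)))
      (fall fun g : ι → ℕ → ℕ → Set P => fall fun C : ℕ → ℕ → Set P =>
        fimp (fall fun ξ => IsFun (g ξ))
          (fnot (fall fun ξ => fall fun η =>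
            fiff (NoColour U r (x ξ) (x η)) (Rel U C (g ξ) (g η)))))

end

section

variable {P : Type} [Preorder P]

theorem meets_of_dense {N : Set P} {p : P} (h : ∀ q ≤ p, ∃ r ≤ q, r ∈ meets N) : p ∈ meets N := by
  intro q hq
  obtain ⟨r, hr, hrN⟩ := h q hq
  obtain ⟨s, hs, t, ht, hst⟩ := hrN r le_rfl
  exact ⟨s, hs.trans hr, t, ht, hst⟩

theorem down_Mem (U : (ℕ → Set P) → Set P) (A : ℕ → Set P) : Down (Mem U A) := down_fex _

theorem sameSet_refl (A : ℕ → Set P) (p : P) : p ∈ SameSet A A := fun _ =>
  ⟨mem_fimp.2 fun q _ h => ⟨q, le_rfl, h⟩, mem_fimp.2 fun q _ h => ⟨q, le_rfl, h⟩⟩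

theorem down_SameSet (A B : ℕ → Set P) : Down (SameSet A B) :=
  down_fall fun _ => down_fand (down_fimp _ _) (down_fimp _ _)

theorem meets_of_fimp {M N : Set P} {p : P} (h : p ∈ fimp (meets M) (meets N))
    (hM : p ∈ meets M) : p ∈ meets N :=
  meets_of_dense fun q hq => by
    obtain ⟨r, hr, hr'⟩ := mem_fimp.1 h q hq (down_meets _ _ hM _ hq)
    exact ⟨r, hr, hr'⟩

/-- membership in a family with a name which is closed downwards -/
theorem mem_Mem {U : (ℕ → Set P) → Set P} (hU : ∀ A, Down (U A))
    (hU' : ∀ A B p, p ∈ U A → p ∈ SameSet A B → p ∈ U B) {A : ℕ → Set P} {p : P} :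
    p ∈ Mem U A ↔ ∀ q ≤ p, ∃ r ≤ q, r ∈ U A := by
  constructor
  · intro h q hq
    obtain ⟨r, hr, B, hB, hAB⟩ := mem_fex.1 h q hq
    obtain ⟨s, hs, hsB⟩ := exists_of_meets (hU B) hB
    refine ⟨s, hs.trans hr, hU' B A s hsB ?_⟩
    have h1 := down_SameSet _ _ _ hAB _ hs
    exact fun n => ⟨(h1 n).2, (h1 n).1⟩
  · intro h
    refine mem_fex.2 fun q hq => ?_
    obtain ⟨r, hr, hrA⟩ := h q hq
    exact ⟨r, hr, A, meets_of_mem hrA, sameSet_refl A r⟩

end

end Pool.Agent.K7.H48.UF
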