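import Pool.Agent.Helper539.LadClos

/-!
# A matching pair
-/

set_option autoImplicit false

namespace Pool.Agent.K7.H48.UF

open Cardinal

theorem pair {ι Dt : Type} (hι : continuum.{0} < #ι) (hD : #Dt ≤ continuum.{0}) (d : ι → Dt)
    (e : ι → ℕ → ι) : ∃ ξ η, ξ ≠ η ∧ d ξ = d η ∧ ∀ i j, e ξ i = e η j → e η i = e η j := by
  classical
  have hne : Nonempty ι := by
    rw [← mk_ne_zero_iff]
    exact (continuum_pos.trans hι).ne'
  obtain ⟨θ0⟩ := hne
  have hM : #(Set ℕ) = continuum.{0} := by simp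
  let F : Dt × Set ℕ → (ℕ → ι) → ℕ → ι := fun x c l =>
    if h : ∃ η, d η = x.1 ∧ ∀ i ∈ x.2, e η i = c i then
      Nat.casesOn l h.choose (fun i => e h.choose i) else θ0
  obtain ⟨A, h0, hA, hcl⟩ := Pool.Agent.Helper539.LadClos.closure_small (Λ := ℕ) (Θ := ι)
    (D := Dt × Set ℕ) (M := Set ℕ) (by
      rw [hM, mk_prod, lift_id, lift_id, hM]
      exact (mul_le_mul_left hD _).trans (by simp)) (by
      rw [hM, mk_nat, continuum_power_aleph0]) (by
      rw [hM]
      exact (nat_lt_continuum 2).le) θ0 F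
  have hex : ∃ ξ, ξ ∉ A := by
    by_contra h
    push Not at h
    have h1 : A = Set.univ := Set.eq_univ_of_forall h
    rw [h1, mk_univ, hM] at hA
    exact absurd hι (not_lt.2 hA)
  obtain ⟨ξ, hξ⟩ := hex
  let s : Set ℕ := {i | e ξ i ∈ A}
  let c : ℕ → ι := fun i => if e ξ i ∈ A then e ξ i else θ0
  have hc : ∀ l, c l ∈ A := by
    intro l
    simp only [c]
    split_ifs with h
    · exact h
    · exact h0
  have hcs : ∀ i ∈ s, e ξ i = c i := fun i hi => (if_pos hi).symm
  have h : ∃ η, d η = (d ξ, s).1 ∧ ∀ i ∈ (d ξ, s).2, e η i = c i := ⟨ξ, rfl, hcs⟩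
  have h1 := hcl (d ξ, s) c hc
  have h2 := h.choose_spec
  have h3 : h.choose ∈ A := by
    have := h1 0
    simp only [F] at this
    rwa [dif_pos h] at this
  have h4 : ∀ i, e h.choose i ∈ A := by
    intro i
    have := h1 (i + 1)
    simp only [F] at this
    rwa [dif_pos h] at this
  refine ⟨ξ, h.choose, fun heq => hξ (heq ▸ h3), h2.1.symm, fun i j hij => ?_⟩
  have h5 : i ∈ s := by
    show e ξ i ∈ A
    rw [hij]
    exact h4 j
  rw [h2.2 i h5, ← hcs i h5, hij]

end Pool.Agent.K7.H48.UF
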