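import Pool.Agent.K7.H48.UF.Fus

/-!
# A Ramsey theorem for conditions

A property of stems of a condition is made homogeneous for the stems which end at a level of
the condition, by passing to a stronger condition with the same coordinates. The proof uses an
idempotent ultrafilter on the semigroup of finite partial stems.
-/

set_option autoImplicit false

namespace Pool.Agent.K7.H48.UF

open Filter

variable {ι : Type}

/-- partial stems -/
structure Wd (ι : Type) where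
  /-- the value at a level -/
  f : ℕ → Option (ι → ℕ)

theorem Wd.ext' {l m : Wd ι} (h : ∀ n, l.f n = m.f n) : l = m := by
  cases l
  cases m
  congr
  exact funext h

/-- the product of two partial stems is their union; in case of conflict the second is used -/
instance : Semigroup (Wd ι) where
  mul l m := ⟨fun n => (m.f n).or (l.f n)⟩
  mul_assoc a b c := Wd.ext' fun n => (Option.or_assoc (o₁ := c.f n) (o₂ := b.f n) (o₃ := a.f n)).symm

theorem mul_f (l m : Wd ι) (n : ℕ) : (l * m).f n = (m.f n).or (l.f n) := rfl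

/-- the empty word -/
def emp : Wd ι := ⟨fun _ => none⟩

theorem emp_mul (l : Wd ι) : emp * l = l := Wd.ext' fun n => by rw [mul_f]; simp [emp]

/-- a word with one letter -/
def single (n : ℕ) (f : ι → ℕ) : Wd ι := ⟨fun k => if k = n then some f else none⟩

/-- the word `l` only has letters at levels in `[N, n)`, and its values are allowed by `q` -/
def Sup (q : Cond ι) (N n : ℕ) (l : Wd ι) : Prop :=
  ∀ k f, l.f k = some f → N ≤ k ∧ k < n ∧ ∀ ζ ∈ q.w, f ζ ∈ q.S k ζ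

theorem Sup.mono {q : Cond ι} {N n N' n' : ℕ} {l : Wd ι} (h : Sup q N n l) (hN : N' ≤ N)
    (hn : n ≤ n') : Sup q N' n' l := fun k f hk =>
  ⟨hN.trans (h k f hk).1, (h k f hk).2.1.trans_le hn, (h k f hk).2.2⟩

theorem Sup.mul {q : Cond ι} {N n : ℕ} {l m : Wd ι} (hl : Sup q N n l) (hm : Sup q N n m) :
    Sup q N n (l * m) := by
  intro k f hk
  rw [mul_f] at hk
  cases h : m.f k with
  | none =>
    rw [h] at hk
    exact hl k f (by simpa using hk)
  | some g =>
    rw [h] at hk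
    have : g = f := by simpa using hk
    subst this
    exact hm k g h

theorem Sup_single {q : Cond ι} {N n : ℕ} (hn : N ≤ n) {f : ι → ℕ}
    (hf : ∀ ζ ∈ q.w, f ζ ∈ q.S n ζ) : Sup q N (n + 1) (single n f) := by
  intro k g hk
  simp only [single] at hk
  split_ifs at hk with h
  · subst h
    have : f = g := by simpa using hk
    subst this
    exact ⟨hn, Nat.lt_succ_self _, hf⟩

theorem Sup_emp {q : Cond ι} {N n : ℕ} : Sup q N n emp := by
  intro k g hk
  simp [emp] at hk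

theorem Sup.eq_none {q : Cond ι} {N n : ℕ} {l : Wd ι} (h : Sup q N n l) {k : ℕ}
    (hk : k < N ∨ n ≤ k) : l.f k = none := by
  cases h' : l.f k with
  | none => rfl
  | some f =>
    have := h k f h'
    omega

/-- `A` contains all the words obtained from a word with a variable letter, whose possible values
are a box of large sets -/
def VW (q : Cond ι) (A : Set (Wd ι)) (F : Finset ι) (j N : ℕ) : Prop :=
  ∃ n ∈ q.a, N ≤ n ∧ ∃ l, Sup q N n l ∧ ∃ (g : ι → ℕ) (T : ι → Finset ℕ),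
    (∀ ζ ∈ q.w, g ζ ∈ q.S n ζ) ∧ (∀ ζ ∈ F, T ζ ⊆ q.S n ζ ∧ Large j (T ζ)) ∧
      ∀ f, InBox F T g f → l * single n f ∈ A

theorem VW.mono {q : Cond ι} {A B : Set (Wd ι)} (hAB : A ⊆ B) {F F' : Finset ι} (hF : F' ⊆ F)
    {j j' N N' : ℕ} (hj : j' ≤ j) (hN : N' ≤ N) (h : VW q A F j N) : VW q B F' j' N' := by
  classical
  obtain ⟨n, hn, hNn, l, hl, g, T, hg, hT, hA⟩ := h
  have hch : ∀ ζ, ∃ b, ζ ∈ F → b ∈ T ζ := by
    intro ζ
    by_cases hζ : ζ ∈ F
    · obtain ⟨b, hb⟩ := (hT ζ hζ).2.nonempty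
      exact ⟨b, fun _ => hb⟩
    · exact ⟨0, fun h => absurd h hζ⟩
  choose b hb using hch
  refine ⟨n, hn, hN.trans hNn, l, hl.mono hN le_rfl, fun ζ => if ζ ∈ F then b ζ else g ζ, T, ?_,
    fun ζ hζ => ⟨(hT ζ (hF hζ)).1, (hT ζ (hF hζ)).2.le hj⟩, fun f hf => hAB (hA f ⟨?_, ?_⟩)⟩
  · intro ζ hζ
    by_cases hζF : ζ ∈ F
    · simp only [if_pos hζF]
      exact (hT ζ hζF).1 (hb ζ hζF)
    · simp only [if_neg hζF]
      exact hg ζ hζ
  · intro ζ hζ
    by_cases hζ' : ζ ∈ F'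
    · exact hf.1 ζ hζ'
    · rw [hf.2 ζ hζ']
      simp only [if_pos hζ]
      exact hb ζ hζ
  · intro ζ hζ
    rw [hf.2 ζ (fun h => hζ (hF h))]
    simp only [if_neg hζ]

/-- `A` does not contain variable words of some kind -/
def Small (q : Cond ι) (A : Set (Wd ι)) : Prop :=
  ∃ F : Finset ι, (↑F : Set ι) ⊆ q.w ∧ ∃ j N, ¬ VW q A F j N

theorem small_empty (q : Cond ι) : Small q ∅ := by
  refine ⟨∅, by simp, 0, 0, ?_⟩
  rintro ⟨n, _, _, l, _, g, T, _, _, h⟩
  exact h g ⟨by simp, fun _ _ => rfl⟩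

theorem Small.mono {q : Cond ι} {A B : Set (Wd ι)} (h : Small q B) (hAB : A ⊆ B) : Small q A := by
  obtain ⟨F, hF, j, N, hv⟩ := h
  exact ⟨F, hF, j, N, fun h' => hv (h'.mono hAB Finset.Subset.rfl le_rfl le_rfl)⟩

theorem Small.union {q : Cond ι} {A B : Set (Wd ι)} (hA : Small q A) (hB : Small q B) :
    Small q (A ∪ B) := by
  classical
  obtain ⟨F, hF, j, N, hv⟩ := hA
  obtain ⟨F', hF', j', N', hv'⟩ := hB
  obtain ⟨J, hJ⟩ := box_homog (F ∪ F') 2 (max j j')
  refine ⟨F ∪ F', by simp [hF, hF'], J, max N N', ?_⟩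
  rintro ⟨n, hn, hNn, l, hl, g, T, hg, hT, hAB⟩
  obtain ⟨T', hT', hT'l, hhom⟩ := hJ T g (fun ζ hζ => (hT ζ hζ).2)
    [fun f => l * single n f ∈ A, fun f => l * single n f ∈ B] (by simp)
  have hcase : (∀ f, InBox (F ∪ F') T' g f → l * single n f ∈ A) ∨
      ∀ f, InBox (F ∪ F') T' g f → l * single n f ∈ B := by
    rcases hhom _ List.mem_cons_self with h | h
    · exact Or.inl h
    · rcases hhom _ (List.mem_cons_of_mem _ List.mem_cons_self) with h' | h'
      · exact Or.inr h'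
      · exfalso
        have hch : ∀ ζ, ∃ b, ζ ∈ F ∪ F' → b ∈ T' ζ := by
          intro ζ
          by_cases hζ : ζ ∈ F ∪ F'
          · obtain ⟨b, hb⟩ := (hT'l ζ hζ).nonempty
            exact ⟨b, fun _ => hb⟩
          · exact ⟨0, fun h => absurd h hζ⟩
        choose b hb using hch
        have hbox : InBox (F ∪ F') T' g fun ζ => if ζ ∈ F ∪ F' then b ζ else g ζ :=
          ⟨fun ζ hζ => by simp only [if_pos hζ]; exact hb ζ hζ,
            fun ζ hζ => by simp only [if_neg hζ]⟩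
        rcases hAB _ (hbox.mono hT') with h1 | h1
        · exact h _ hbox h1
        · exact h' _ hbox h1
  have hT'' : ∀ ζ ∈ F ∪ F', T' ζ ⊆ q.S n ζ ∧ Large (max j j') (T' ζ) := fun ζ hζ =>
    ⟨(hT' ζ hζ).trans (hT ζ hζ).1, hT'l ζ hζ⟩
  rcases hcase with h | h
  · exact hv (VW.mono Set.Subset.rfl Finset.subset_union_left (le_max_left _ _) (le_max_left _ _)
      ⟨n, hn, hNn, l, hl, g, T', hg, hT'', h⟩)
  · exact hv' (VW.mono Set.Subset.rfl Finset.subset_union_right (le_max_right _ _)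
      (le_max_right _ _) ⟨n, hn, hNn, l, hl, g, T', hg, hT'', h⟩)

theorem not_small_univ (q : Cond ι) : ¬ Small q Set.univ := by
  rintro ⟨F, hF, j, N, hv⟩
  obtain ⟨n, hn, hNn, hL⟩ := exists_level q N j F hF
  exact hv ⟨n, hn, hNn, emp, Sup_emp, ch q n, q.S n, fun ζ hζ => ch_mem q n hζ,
    fun ζ hζ => ⟨Finset.Subset.rfl, hL ζ hζ⟩, fun f _ => trivial⟩

theorem small_compl (q : Cond ι) (N : ℕ) : Small q {l | ∃ n, Sup q N n l}ᶜ := by
  refine ⟨∅, by simp, 0, N, ?_⟩
  rintro ⟨n, _, hNn, l, hl, g, T, hg, _, h⟩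
  exact h g ⟨by simp, fun _ _ => rfl⟩ ⟨n + 1, (hl.mono le_rfl (by omega)).mul (Sup_single hNn hg)⟩

attribute [local instance] Ultrafilter.mul Ultrafilter.semigroup

theorem exists_idem (q : Cond ι) : ∃ U : Ultrafilter (Wd ι), (∀ A ∈ U, ¬ Small q A) ∧ U * U = U := by
  classical
  refine exists_idempotent_in_compact_subsemigroup
    (M := Ultrafilter (Wd ι)) Ultrafilter.continuous_mul_left
    {U : Ultrafilter (Wd ι) | ∀ A ∈ U, ¬ Small q A} ?_ ?_ ?_
  · -- nonempty
    let Fl : Filter (Wd ι) := Filter.comk (Small q) (small_empty q)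
      (fun t ht s hs => ht.mono hs) (fun s hs t ht => hs.union ht)
    have hne : Fl.NeBot := by
      refine ⟨fun hbot => not_small_univ q ?_⟩
      have h1 : (∅ : Set (Wd ι)) ∈ Fl := by rw [hbot]; exact Filter.mem_bot
      have h2 : Small q (∅ : Set (Wd ι))ᶜ := Filter.mem_comk.1 h1
      simpa using h2
    refine ⟨Ultrafilter.of Fl, fun A hA hs => ?_⟩
    have h1 : Aᶜ ∈ Fl := Filter.mem_comk.2 (by simpa using hs)
    have h2 : Aᶜ ∈ Ultrafilter.of Fl := Ultrafilter.of_le Fl h1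
    exact (Ultrafilter.compl_mem_iff_notMem.1 h2) hA
  · -- compact
    refine IsClosed.isCompact ?_
    have : {U : Ultrafilter (Wd ι) | ∀ A ∈ U, ¬ Small q A} =
        ⋂ A : {A : Set (Wd ι) // Small q A}, {U : Ultrafilter (Wd ι) | A.1 ∈ U}ᶜ := by
      ext U
      simp only [Set.mem_ofPred_eq, Set.mem_iInter, Set.mem_compl_iff, Subtype.forall]
      exact ⟨fun h A hA hU => h A hU hA, fun h A hU hA => h A hA hU⟩
    rw [this]
    exact isClosed_iInter fun A => (ultrafilter_isOpen_basic A.1).isClosed_compl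
  · -- products
    rintro U hU V hV A hA ⟨F, hF, j, N, hv⟩
    have h1 : {l | {m | l * m ∈ A} ∈ V} ∈ U := hA
    have h2 : {l | ∃ n, Sup q N n l} ∈ U := by
      by_contra h
      exact hU _ (Ultrafilter.compl_mem_iff_notMem.2 h) (small_compl q N)
    obtain ⟨l, hl1, n, hl2⟩ := Ultrafilter.nonempty_of_mem (Filter.inter_mem h1 h2)
    have h3 := hV _ hl1
    have h4 : VW q {m | l * m ∈ A} F j (max N n) := by
      by_contra h
      exact h3 ⟨F, hF, j, _, h⟩
    obtain ⟨n', hn', hNn', l', hl', g, T, hg, hT, hA'⟩ := h4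
    refine hv ⟨n', hn', (le_max_left _ _).trans hNn', l * l', ?_, g, T, hg, hT, fun f hf => ?_⟩
    · exact (hl2.mono le_rfl ((le_max_right _ _).trans hNn')).mul
        (hl'.mono (le_max_left _ _) le_rfl)
    · rw [mul_assoc]
      exact hA' f hf

/-- the stem given by a word -/
noncomputable def fill (q : Cond ι) (l : Wd ι) : ℕ → ι → ℕ := fun k => (l.f k).getD (ch q k)

theorem fill_mem {q : Cond ι} {N n : ℕ} {l : Wd ι} (h : Sup q N n l) (k : ℕ) {ζ : ι}
    (hζ : ζ ∈ q.w) : fill q l k ζ ∈ q.S k ζ := by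
  unfold fill
  cases h' : l.f k with
  | none => exact ch_mem q k hζ
  | some f => exact (h k f h').2.2 ζ hζ

theorem build (q : Cond ι) (U : Ultrafilter (Wd ι)) (hU : ∀ A ∈ U, ¬ Small q A) (hUU : U * U = U)
    (A : Set (Wd ι)) (hA : A ∈ U) : ∃ q' ≤ q, q'.w = q.w ∧ ∀ n ∈ q'.a, ∀ X, In q' (n + 1) X →
      ∃ l ∈ A, Sup q 0 (n + 1) l ∧ (∃ f, l.f n = some f) ∧
        ∀ k < n + 1, ∀ ζ ∈ q.w, X k ζ = fill q l k ζ := by
  classical
  let As : Set (Wd ι) := {l | l ∈ A ∧ {m | l * m ∈ A} ∈ U}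
  have hAs : As ∈ U := by
    refine Filter.inter_mem hA ?_
    have h1 : A ∈ U * U := by rw [hUU]; exact hA
    exact h1
  have hAs' : ∀ l ∈ As, {m | l * m ∈ As} ∈ U := by
    rintro l ⟨_, hl⟩
    refine Filter.inter_mem hl ?_
    have h1 : {m | l * m ∈ A} ∈ U * U := by rw [hUU]; exact hl
    have h2 : {m | {k | l * (m * k) ∈ A} ∈ U} ∈ U := h1
    refine Filter.mem_of_superset h2 fun m hm => ?_
    have h3 : {k | l * m * k ∈ A} = {k | l * (m * k) ∈ A} :=
      Set.ext fun k => by show l * m * k ∈ A ↔ l * (m * k) ∈ A; rw [mul_assoc]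
    show {k | l * m * k ∈ A} ∈ U
    rw [h3]
    exact hm
  obtain ⟨e, he⟩ := Set.countable_iff_exists_injOn.1 q.cnt
  have hFfin : ∀ i, {ζ | ζ ∈ q.w ∧ e ζ ≤ i}.Finite := fun m =>
    Set.Finite.of_injOn (t := {k | k ≤ m}) (f := e) (fun ζ hζ => hζ.2)
      (he.mono fun ζ hζ => hζ.1) (Set.finite_le_nat m)
  let F : ℕ → Finset ι := fun i => (hFfin i).toFinset
  have hF : ∀ i ζ, ζ ∈ F i ↔ ζ ∈ q.w ∧ e ζ ≤ i := fun i ζ => (hFfin i).mem_toFinset
  let St : Type := {s : ℕ × Set (Wd ι) // s.2.Finite ∧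
    ∀ l ∈ s.2, {m | l * m ∈ As} ∈ U ∧ Sup q 0 s.1 l}
  have hex : ∀ (i : ℕ) (s : St), ∃ (s' : St) (n : ℕ) (l : Wd ι) (g : ι → ℕ) (T : ι → Finset ℕ),
      s.1.1 ≤ n ∧ s'.1.1 = n + 1 ∧ n ∈ q.a ∧ Sup q s.1.1 n l ∧ (∀ ζ ∈ q.w, g ζ ∈ q.S n ζ) ∧
      (∀ ζ ∈ F i, T ζ ⊆ q.S n ζ ∧ Large i (T ζ)) ∧
      (∀ m ∈ s.1.2, ∀ f, InBox (F i) T g f → m * (l * single n f) ∈ s'.1.2) ∧
      ∀ m ∈ s'.1.2, m ∈ A ∧ ∃ f, m.f n = some f := by
    rintro i ⟨⟨N, L⟩, hL, hL'⟩
    have hB : (⋂ l ∈ L, {m | l * m ∈ As}) ∈ U := (Filter.biInter_mem hL).2 fun l hl => (hL' l hl).1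
    have hVW : VW q (⋂ l ∈ L, {m | l * m ∈ As}) (F i) i N := by
      by_contra h
      exact hU _ hB ⟨F i, fun ζ hζ => ((hF i ζ).1 hζ).1, i, N, h⟩
    obtain ⟨n, hn, hNn, l, hl, g, T, hg, hT, hVA⟩ := hVW
    have hmem : ∀ m ∈ L, ∀ f, InBox (F i) T g f → m * (l * single n f) ∈ As := by
      intro m hm f hf
      have := hVA f hf
      exact Set.mem_iInter₂.1 this m hm
    have hfbox := finite_box (F i) T g
    have hvals : ∀ f, InBox (F i) T g f → ∀ ζ ∈ q.w, f ζ ∈ q.S n ζ := by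
      intro f hf ζ hζ
      by_cases hζF : ζ ∈ F i
      · exact (hT ζ hζF).1 (hf.1 ζ hζF)
      · rw [hf.2 ζ hζF]
        exact hg ζ hζ
    refine ⟨⟨⟨n + 1, (fun x : Wd ι × (ι → ℕ) => x.1 * (l * single n x.2)) ''
      (L ×ˢ {f | InBox (F i) T g f})⟩, (hL.prod hfbox).image _, ?_⟩, n, l, g, T, hNn, rfl, hn, hl,
      hg, hT, ?_, ?_⟩
    · rintro _ ⟨⟨m, f⟩, ⟨hm, hf⟩, rfl⟩
      refine ⟨hAs' _ (hmem m hm f hf), ?_⟩
      exact ((hL' m hm).2.mono le_rfl (by show N ≤ n + 1; omega)).mul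
        ((hl.mono (Nat.zero_le _) (by omega)).mul (Sup_single (Nat.zero_le _) (hvals f hf)))
    · intro m hm f hf
      exact ⟨⟨m, f⟩, ⟨hm, hf⟩, rfl⟩
    · rintro _ ⟨⟨m, f⟩, ⟨hm, hf⟩, rfl⟩
      refine ⟨(hmem m hm f hf).1, f, ?_⟩
      simp [mul_f, single]
  choose nxt nn' ll' gg' TT' hnxt using hex
  let s0 : St := ⟨⟨0, {emp}⟩, Set.finite_singleton _, by
    intro l hl
    have : l = emp := hl
    subst this
    refine ⟨?_, Sup_emp⟩
    have h3 : {m | emp * m ∈ As} = As :=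
      Set.ext fun m => by show emp * m ∈ As ↔ m ∈ As; rw [emp_mul]
    rw [h3]
    exact hAs⟩
  let sq : ℕ → St := fun i => Nat.rec s0 (fun i s => nxt i s) i
  let N : ℕ → ℕ := fun i => (sq i).1.1
  let L : ℕ → Set (Wd ι) := fun i => (sq i).1.2
  let nn : ℕ → ℕ := fun i => nn' i (sq i)
  let ll : ℕ → Wd ι := fun i => ll' i (sq i)
  let gg : ℕ → ι → ℕ := fun i => gg' i (sq i)
  let TT : ℕ → ι → Finset ℕ := fun i => TT' i (sq i)
  have e1 : ∀ i, N i ≤ nn i := fun i => (hnxt i (sq i)).1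
  have e2 : ∀ i, N (i + 1) = nn i + 1 := fun i => (hnxt i (sq i)).2.1
  have e3 : ∀ i, nn i ∈ q.a := fun i => (hnxt i (sq i)).2.2.1
  have e4 : ∀ i, Sup q (N i) (nn i) (ll i) := fun i => (hnxt i (sq i)).2.2.2.1
  have e5 : ∀ i, ∀ ζ ∈ q.w, gg i ζ ∈ q.S (nn i) ζ := fun i => (hnxt i (sq i)).2.2.2.2.1
  have e6 : ∀ i, ∀ ζ ∈ F i, TT i ζ ⊆ q.S (nn i) ζ ∧ Large i (TT i ζ) :=
    fun i => (hnxt i (sq i)).2.2.2.2.2.1
  have e7 : ∀ i, ∀ m ∈ L i, ∀ f, InBox (F i) (TT i) (gg i) f →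
      m * (ll i * single (nn i) f) ∈ L (i + 1) := fun i => (hnxt i (sq i)).2.2.2.2.2.2.1
  have e8 : ∀ i, ∀ m ∈ L (i + 1), m ∈ A ∧ ∃ f, m.f (nn i) = some f :=
    fun i => (hnxt i (sq i)).2.2.2.2.2.2.2
  have e9 : ∀ i, ∀ m ∈ L i, Sup q 0 (N i) m := fun i m hm => ((sq i).2.2 m hm).2
  have hN0 : N 0 = 0 := rfl
  have hL0 : emp ∈ L 0 := Set.mem_singleton _
  have hN : ∀ i, N i < N (i + 1) := fun i => by rw [e2]; exact Nat.lt_succ_of_le (e1 i)
  have hNm : StrictMono N := strictMono_nat_of_lt_succ hN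
  have hnn : StrictMono nn := by
    refine strictMono_nat_of_lt_succ fun i => ?_
    have := e1 (i + 1)
    rw [e2] at this
    omega
  choose bl hbl using exists_block hN0 hN
  have hblu : ∀ i k, N i ≤ k → k < N (i + 1) → bl k = i := by
    intro i k h1 h2
    obtain ⟨h3, h4⟩ := hbl k
    rcases lt_trichotomy (bl k) i with h | h | h
    · have : N (bl k + 1) ≤ N i := hNm.monotone h
      omega
    · exact h
    · have : N (i + 1) ≤ N (bl k) := hNm.monotone h
      omega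
  have hblnn : ∀ i, bl (nn i) = i := fun i => hblu i _ (e1 i) (by rw [e2]; omega)
  let S : ℕ → ι → Finset ℕ := fun k ζ =>
    if k = nn (bl k) then (if ζ ∈ F (bl k) then TT (bl k) ζ else {gg (bl k) ζ})
    else {fill q (ll (bl k)) k ζ}
  have hS1 : ∀ i, ∀ ζ ∈ F i, S (nn i) ζ = TT i ζ := by
    intro i ζ hζ
    simp only [S, hblnn, if_true]
    rw [if_pos hζ]
  have hS2 : ∀ i, ∀ ζ, ζ ∉ F i → S (nn i) ζ = {gg i ζ} := by
    intro i ζ hζ
    simp only [S, hblnn, if_true]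
    rw [if_neg hζ]
  have hS3 : ∀ i k, N i ≤ k → k < nn i → ∀ ζ, S k ζ = {fill q (ll i) k ζ} := by
    intro i k h1 h2 ζ
    have h3 : bl k = i := hblu i k h1 (by rw [e2]; omega)
    simp only [S, h3]
    rw [if_neg (by omega)]
  let q' : Cond ι :=
    { a := Set.range nn
      w := q.w
      S := S
      inf := Set.infinite_range_of_injective hnn.injective
      cnt := q.cnt
      ne := by
        intro k ζ hζ
        simp only [S]
        split_ifs with h1 h2
        · exact (e6 _ ζ h2).2.nonempty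
        · exact Finset.singleton_nonempty _
        · exact Finset.singleton_nonempty _
      fin := by
        intro k
        refine (F (bl k)).finite_toSet.subset ?_
        rintro ζ ⟨_, h⟩
        simp only [S] at h
        split_ifs at h with h1 h2
        · exact h2
        · simp at h
        · simp at h
      off := by
        intro k hk ζ hζ
        have h1 : ¬ k = nn (bl k) := fun h => hk ⟨_, h.symm⟩
        simp only [S]
        rw [if_neg h1]
        simp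
      lg := by
        intro ζ hζ j
        refine ⟨nn (max j (e ζ)), ?_⟩
        rintro _ ⟨i, rfl⟩ hi
        have h1 : max j (e ζ) ≤ i := hnn.le_iff_le.1 hi
        have h2 : ζ ∈ F i := (hF i ζ).2 ⟨hζ, by omega⟩
        rw [hS1 i ζ h2]
        exact (e6 i ζ h2).2.le (by omega) }
  have hle : q' ≤ q := by
    refine ⟨?_, Set.Subset.rfl, fun k ζ hζ => ?_⟩
    · rintro _ ⟨i, rfl⟩
      exact e3 i
    · show S k ζ ⊆ q.S k ζ
      simp only [S]
      split_ifs with h1 h2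
      · have := (e6 _ ζ h2).1
        rwa [← h1] at this
      · have := e5 (bl k) ζ hζ
        rw [← h1] at this
        simpa using this
      · simpa using fill_mem (e4 (bl k)) k hζ
  have key : ∀ i X, In q' (N i) X → ∃ l ∈ L i, ∀ k < N i, ∀ ζ ∈ q.w, X k ζ = fill q l k ζ := by
    intro i
    induction i with
    | zero =>
      intro X _
      refine ⟨emp, hL0, fun k hk => ?_⟩
      rw [hN0] at hk
      omega
    | succ i ih =>
      intro X hX
      obtain ⟨l, hl, hXl⟩ := ih X fun k hk => hX k (hk.trans (hN i))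
      have hbox : InBox (F i) (TT i) (gg i) fun ζ => if ζ ∈ F i then X (nn i) ζ else gg i ζ := by
        refine ⟨fun ζ hζ => ?_, fun ζ hζ => by simp only [if_neg hζ]⟩
        simp only [if_pos hζ]
        rw [← hS1 i ζ hζ]
        exact hX (nn i) (by rw [e2]; omega) ζ ((hF i ζ).1 hζ).1
      refine ⟨_, e7 i l hl _ hbox, fun k hk ζ hζ => ?_⟩
      rw [e2] at hk
      have hXk : X k ζ ∈ S k ζ := hX k (by rw [e2]; omega) ζ hζ
      rcases lt_trichotomy k (nn i) with h | h | h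
      · have h1 : (single (nn i) fun ζ => if ζ ∈ F i then X (nn i) ζ else gg i ζ).f k = none := by
          simp only [single]
          rw [if_neg (by omega)]
        by_cases hkN : k < N i
        · have h2 : (ll i).f k = none := (e4 i).eq_none (Or.inl hkN)
          rw [hXl k hkN ζ hζ]
          unfold fill
          rw [mul_f, mul_f, h1, h2]
          simp
        · have h2 : l.f k = none := (e9 i l hl).eq_none (Or.inr (not_lt.1 hkN))
          rw [hS3 i k (not_lt.1 hkN) h ζ] at hXk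
          rw [Finset.mem_singleton.1 hXk]
          unfold fill
          rw [mul_f, mul_f, h1, h2]
          simp
      · subst h
        have h1 : fill q (l * (ll i * single (nn i) fun ζ => if ζ ∈ F i then X (nn i) ζ
            else gg i ζ)) (nn i) ζ = if ζ ∈ F i then X (nn i) ζ else gg i ζ := by
          unfold fill
          simp [mul_f, single]
        rw [h1]
        by_cases hζF : ζ ∈ F i
        · rw [if_pos hζF]
        · rw [if_neg hζF]
          rw [hS2 i ζ hζF] at hXk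
          exact Finset.mem_singleton.1 hXk
      · omega
  refine ⟨q', hle, rfl, ?_⟩
  rintro _ ⟨i, rfl⟩ X hX
  rw [← e2] at hX
  obtain ⟨l, hl, hXl⟩ := key (i + 1) X hX
  refine ⟨l, (e8 i l hl).1, ?_, (e8 i l hl).2, ?_⟩
  · have := e9 (i + 1) l hl
    rwa [e2] at this
  · intro k hk
    exact hXl k (by rw [e2]; exact hk)

/-- The Ramsey theorem. -/
theorem ramsey (q : Cond ι) (φ : ℕ → (ℕ → ι → ℕ) → Prop)
    (hφ : ∀ n X X', (∀ m < n + 1, ∀ ζ ∈ q.w, X m ζ = X' m ζ) → φ n X → φ n X') :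
    ∃ q' ≤ q, q'.w = q.w ∧ ((∀ n ∈ q'.a, ∀ X, In q' (n + 1) X → φ n X) ∨
      ∀ n ∈ q'.a, ∀ X, In q' (n + 1) X → ¬ φ n X) := by
  obtain ⟨U, hU, hUU⟩ := exists_idem q
  let A : Set (Wd ι) := {l | ∃ n f, l.f n = some f ∧ (∀ k > n, l.f k = none) ∧ φ n (fill q l)}
  have htop : ∀ l n, Sup q 0 (n + 1) l → (∃ f, l.f n = some f) → (l ∈ A ↔ φ n (fill q l)) := by
    rintro l n hs ⟨f, hf⟩
    have hk : ∀ k > n, l.f k = none := fun k hk => hs.eq_none (Or.inr hk)
    constructor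
    · rintro ⟨n', f', h1, h2, h3⟩
      have : n' = n := by
        rcases lt_trichotomy n' n with h | h | h
        · rw [h2 n h] at hf
          cases hf
        · exact h
        · rw [hk n' h] at h1
          cases h1
      rwa [this] at h3
    · intro h
      exact ⟨n, f, hf, hk, h⟩
  by_cases hA : A ∈ U
  · obtain ⟨q', h1, h2, h3⟩ := build q U hU hUU A hA
    refine ⟨q', h1, h2, Or.inl fun n hn X hX => ?_⟩
    obtain ⟨l, hl, h4, h5, h6⟩ := h3 n hn X hX
    exact hφ n _ _ (fun m hm ζ hζ => (h6 m hm ζ hζ).symm) ((htop l n h4 h5).1 hl)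
  · obtain ⟨q', h1, h2, h3⟩ := build q U hU hUU Aᶜ (Ultrafilter.compl_mem_iff_notMem.2 hA)
    refine ⟨q', h1, h2, Or.inr fun n hn X hX hφX => ?_⟩
    obtain ⟨l, hl, h4, h5, h6⟩ := h3 n hn X hX
    exact hl ((htop l n h4 h5).2 (hφ n _ _ h6 hφX))

end Pool.Agent.K7.H48.UF
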