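import Pool.Agent.K7.H48.UF.Ult
import Pool.Agent.K7.H48.UF.Pair

/-!
# The relation of the generic functions is not represented
-/

set_option autoImplicit false

namespace Pool.Agent.K7.H48.UF

open Pool.Agent.Helper669.Forcing

variable {ι : Type}

theorem decide_finite (L : List (Set (Cond ι))) (p : Cond ι) :
    ∃ q ≤ p, ∀ N ∈ L, q ∈ meets N ∨ q ∈ fnot (meets N) := by
  induction L with
  | nil => exact ⟨p, le_rfl, by simp⟩
  | cons N L ih =>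
    obtain ⟨q, hq, h⟩ := ih
    have h1 : ∃ r ≤ q, r ∈ meets N ∨ r ∈ fnot (meets N) := by
      by_cases h : ∃ r ≤ q, r ∈ meets N
      · obtain ⟨r, h1, h2⟩ := h
        exact ⟨r, h1, Or.inl h2⟩
      · push Not at h
        exact ⟨q, le_rfl, Or.inr h⟩
    obtain ⟨r, hr, hr'⟩ := h1
    refine ⟨r, hr.trans hq, fun M hM => ?_⟩
    rcases List.mem_cons.1 hM with rfl | hM
    · exact hr'
    · exact (h M hM).imp (fun h => down_meets _ _ h _ hr) fun h => down_fnot _ _ h _ hr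

/-- reading the function `g` and the relation `C` -/
theorem read (g : ℕ → ℕ → Set (Cond ι)) (C : ℕ → ℕ → Set (Cond ι)) (p0 : Cond ι)
    (hg : p0 ∈ IsFun g) (ξ : ι) : ∃ p ≤ p0, ξ ∈ p.w ∧ ∃ B : ℕ → ℕ, ∀ n ∈ p.a, ∀ X,
      In p (n + 1) X → (∃ i ≤ B n, fix p (n + 1) X ∈ meets (g n i)) ∧ ∀ i ≤ B n, ∀ j ≤ B n,
        fix p (n + 1) X ∈ meets (C i j) ∨ fix p (n + 1) X ∈ fnot (meets (C i j)) := by
  classical
  obtain ⟨p1, hp1, hξ⟩ := exists_add p0 ξ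
  obtain ⟨q1, hq1, h1⟩ := master (fun n => {r | ∃ i, r ∈ meets (g n i)})
    (fun n r hr s hs => by
      obtain ⟨i, hi⟩ := hr
      exact ⟨i, down_meets _ _ hi _ hs⟩) p1
    (fun n r hr => by
      obtain ⟨s, hs, i, hi⟩ := IsFun.total (down_IsFun _ _ hg _ (hr.trans hp1)) n
      exact ⟨s, hs, i, hi⟩)
  have hB : ∀ n, ∃ B, n ∈ q1.a → ∀ X, In q1 (n + 1) X →
      ∃ i ≤ B, fix q1 (n + 1) X ∈ meets (g n i) := by
    intro n
    by_cases hn : n ∈ q1.a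
    · obtain ⟨L, hL, hL'⟩ := exists_stems q1 (n + 1)
      have hb : ∀ L : List (ℕ → ι → ℕ), (∀ X ∈ L, In q1 (n + 1) X) → ∃ B, ∀ X ∈ L,
          ∃ i ≤ B, fix q1 (n + 1) X ∈ meets (g n i) := by
        intro L
        induction L with
        | nil => exact fun _ => ⟨0, by simp⟩
        | cons X L ih =>
          intro hL
          obtain ⟨B, hB⟩ := ih fun Y hY => hL Y (List.mem_cons_of_mem _ hY)
          obtain ⟨i, hi⟩ := h1 n hn X (hL X List.mem_cons_self)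
          refine ⟨max B i, fun Y hY => ?_⟩
          rcases List.mem_cons.1 hY with rfl | hY
          · exact ⟨i, le_max_right _ _, hi⟩
          · obtain ⟨k, hk, hk'⟩ := hB Y hY
            exact ⟨k, hk.trans (le_max_left _ _), hk'⟩
      obtain ⟨B, hB⟩ := hb L hL
      refine ⟨B, fun _ X hX => ?_⟩
      obtain ⟨Y, hY, hXY⟩ := hL' X hX
      obtain ⟨i, hi, hi'⟩ := hB Y hY
      exact ⟨i, hi, down_meets _ _ hi' _ (fix_congr hXY)⟩
    · exact ⟨0, fun h => absurd h hn⟩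
  choose B hB using hB
  obtain ⟨q2, hq2, h2⟩ := master
    (fun n => {r | ∀ i ≤ B n, ∀ j ≤ B n, r ∈ meets (C i j) ∨ r ∈ fnot (meets (C i j))})
    (fun n r hr s hs i hi j hj => (hr i hi j hj).imp (fun h => down_meets _ _ h _ hs)
      fun h => down_fnot _ _ h _ hs) q1
    (fun n r _ => by
      obtain ⟨s, hs, h⟩ := decide_finite ((List.range (B n + 1)).flatMap fun i =>
        (List.range (B n + 1)).map fun j => C i j) r
      refine ⟨s, hs, fun i hi j hj => h _ ?_⟩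
      exact List.mem_flatMap.2 ⟨i, List.mem_range.2 (by omega),
        List.mem_map.2 ⟨j, List.mem_range.2 (by omega), rfl⟩⟩)
  refine ⟨q2, hq2.trans (hq1.trans hp1), hq2.2.1 (hq1.2.1 hξ), B, fun n hn X hX => ⟨?_, ?_⟩⟩
  · obtain ⟨i, hi, hi'⟩ := hB n (hq2.1 hn) X (hX.mono hq2 le_rfl)
    exact ⟨i, hi, down_meets _ _ hi' _ (fix_mono hq2)⟩
  · exact h2 n hn X hX

/-- amalgamation -/
theorem amalg (p q : Cond ι) (ha : p.a = q.a)
    (hS : ∀ n, ∀ ζ ∈ p.w, ζ ∈ q.w → p.S n ζ = q.S n ζ) :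
    ∃ s : Cond ι, s ≤ p ∧ s ≤ q ∧ ∀ n, ∀ ζ, (ζ ∈ p.w → s.S n ζ = p.S n ζ) ∧
      (ζ ∈ q.w → s.S n ζ = q.S n ζ) ∧ s.a = p.a := by
  classical
  let S : ℕ → ι → Finset ℕ := fun n ζ => if ζ ∈ p.w then p.S n ζ else q.S n ζ
  have h1 : ∀ n, ∀ ζ ∈ p.w, S n ζ = p.S n ζ := fun n ζ hζ => if_pos hζ
  have h2 : ∀ n, ∀ ζ ∈ q.w, S n ζ = q.S n ζ := by
    intro n ζ hζ
    by_cases h : ζ ∈ p.w
    · rw [h1 n ζ h, hS n ζ h hζ]
    · exact if_neg h
  refine ⟨⟨p.a, p.w ∪ q.w, S, p.inf, p.cnt.union q.cnt, ?_, ?_, ?_, ?_⟩,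
    ⟨Set.Subset.rfl, Set.subset_union_left, fun n ζ hζ => (h1 n ζ hζ).subset⟩,
    ⟨ha.subset, Set.subset_union_right, fun n ζ hζ => (h2 n ζ hζ).subset⟩,
    fun n ζ => ⟨h1 n ζ, h2 n ζ, rfl⟩⟩
  · rintro n ζ (hζ | hζ)
    · rw [h1 n ζ hζ]
      exact p.ne n ζ hζ
    · rw [h2 n ζ hζ]
      exact q.ne n ζ hζ
  · intro n
    refine ((p.fin n).union (q.fin n)).subset ?_
    rintro ζ ⟨hζ | hζ, h⟩
    · rw [h1 n ζ hζ] at h
      exact Or.inl ⟨hζ, h⟩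
    · rw [h2 n ζ hζ] at h
      exact Or.inr ⟨hζ, h⟩
  · rintro n hn ζ (hζ | hζ)
    · rw [h1 n ζ hζ]
      exact p.off n hn ζ hζ
    · rw [h2 n ζ hζ]
      exact q.off n (ha ▸ hn) ζ hζ
  · rintro ζ (hζ | hζ) j
    · obtain ⟨M, hM⟩ := p.lg ζ hζ j
      exact ⟨M, fun n hn hj => by rw [h1 n ζ hζ]; exact hM n hn hj⟩
    · obtain ⟨M, hM⟩ := q.lg ζ hζ j
      exact ⟨M, fun n hn hj => by rw [h2 n ζ hζ]; exact hM n (ha ▸ hn) hj⟩

/-- the colour `k` between two parts of one set, for all possible sizes up to `n` -/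
theorem exists_parts (k n : ℕ) (s : Finset ℕ) : ∃ s1 ⊆ s, ∃ s2 ⊆ s,
    (s.Nonempty → s1.Nonempty ∧ s2.Nonempty) ∧ ∀ j, k ≤ j → j ≤ n → Large (j + 1) s →
      Large j s1 ∧ Large j s2 ∧ ∀ a ∈ s1, ∀ b ∈ s2, a ≠ b ∧ r a b = k := by
  classical
  by_cases h : ∃ j, k ≤ j ∧ j ≤ n ∧ Large (j + 1) s
  · have hP : ∃ j ≤ n, k ≤ j ∧ Large (j + 1) s := by
      obtain ⟨j, h1, h2, h3⟩ := h
      exact ⟨j, h2, h1, h3⟩
    obtain ⟨j0, hj0n, hj0⟩ := hP
    have h1 := Nat.findGreatest_spec (P := fun j => k ≤ j ∧ Large (j + 1) s) hj0n hj0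
    set J := Nat.findGreatest (fun j => k ≤ j ∧ Large (j + 1) s) n with hJ
    obtain ⟨s1, hs1, s2, hs2, h2, h3, h4⟩ := h1.2.pair h1.1
    refine ⟨s1, hs1, s2, hs2, fun _ => ⟨h2.nonempty, h3.nonempty⟩, fun j hkj hjn hL => ?_⟩
    have h5 : j ≤ J := Nat.le_findGreatest hjn ⟨hkj, hL⟩
    exact ⟨h2.le h5, h3.le h5, h4⟩
  · push Not at h
    exact ⟨s, Finset.Subset.rfl, s, Finset.Subset.rfl, fun h => ⟨h, h⟩, fun j h1 h2 h3 =>
      absurd h3 (h j h1 h2)⟩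

/-- `c` is equal to `p` from the level `N` on -/
def Tail (p : Cond ι) (N : ℕ) (c : Cond ι) : Prop :=
  c ≤ p ∧ c.w = p.w ∧ ∀ n, N ≤ n → (n ∈ p.a → n ∈ c.a) ∧ ∀ ζ ∈ p.w, c.S n ζ = p.S n ζ

/-- separating two coordinates with the colour `k` from some level on -/
theorem separate (p c : Cond ι) (N k : ℕ) (hc : Tail p N c) {ξ η : ι} (hξ : ξ ∈ p.w)
    (hη : η ∈ p.w) (hne : ξ ≠ η) (hS : ∀ n, p.S n ξ = p.S n η) :
    ∃ c', LeN N c' c ∧ c'.w = p.w ∧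
      ∀ n ∈ c'.a, N ≤ n → ∀ a ∈ c'.S n ξ, ∀ b ∈ c'.S n η, a ≠ b ∧ r a b = k := by
  classical
  obtain ⟨hcp, hcw, hct⟩ := hc
  obtain ⟨M, hM⟩ := p.lg ξ hξ (k + 1)
  set N' := max (max M N) k with hN'
  choose s1 hs1 s2 hs2 hsne hsL using fun n => exists_parts k n (p.S n ξ)
  have ht := trim_LeN c N N'
  let T : ℕ → ι → Finset ℕ := fun n ζ =>
    if N' ≤ n ∧ n ∈ c.a then (if ζ = ξ then s1 n else if ζ = η then s2 n
      else (trim c N N').S n ζ) else (trim c N N').S n ζ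
  have htS : ∀ n, N' ≤ n → ∀ ζ ∈ p.w, (trim c N N').S n ζ = p.S n ζ := by
    intro n hn ζ hζ
    rw [trim_S (Or.inr hn), (hct n (by omega)).2 ζ hζ]
  have hT1 : ∀ n, N' ≤ n → n ∈ c.a → T n ξ = s1 n := fun n h1 h2 =>
    (if_pos ⟨h1, h2⟩).trans (if_pos rfl)
  have hT2 : ∀ n, N' ≤ n → n ∈ c.a → T n η = s2 n := fun n h1 h2 =>
    (if_pos ⟨h1, h2⟩).trans ((if_neg hne.symm).trans (if_pos rfl))
  have hT3 : ∀ n ζ, ζ ≠ ξ → ζ ≠ η → T n ζ = (trim c N N').S n ζ := fun n ζ h1 h2 => by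
    simp only [T]
    rw [if_neg h1, if_neg h2]
    simp
  have hT4 : ∀ n ζ, ¬ (N' ≤ n ∧ n ∈ c.a) → T n ζ = (trim c N N').S n ζ := fun n ζ h => if_neg h
  have hTsub : ∀ n, ∀ ζ ∈ p.w, T n ζ ⊆ (trim c N N').S n ζ := by
    intro n ζ hζ
    by_cases h : N' ≤ n ∧ n ∈ c.a
    · by_cases h1 : ζ = ξ
      · subst h1
        rw [hT1 n h.1 h.2, htS n h.1 _ hζ]
        exact hs1 n
      · by_cases h2 : ζ = η
        · subst h2
          rw [hT2 n h.1 h.2, htS n h.1 _ hζ, ← hS n]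
          exact hs2 n
        · rw [hT3 n ζ h1 h2]
    · rw [hT4 n ζ h]
  have hTne : ∀ n, ∀ ζ ∈ p.w, (T n ζ).Nonempty := by
    intro n ζ hζ
    have h0 : ((trim c N N').S n ζ).Nonempty := (trim c N N').ne n ζ (by rw [← hcw] at hζ; exact hζ)
    by_cases h : N' ≤ n ∧ n ∈ c.a
    · by_cases h1 : ζ = ξ
      · subst h1
        rw [hT1 n h.1 h.2]
        exact (hsne n (p.ne n ζ hζ)).1
      · by_cases h2 : ζ = η
        · subst h2
          rw [hT2 n h.1 h.2]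
          exact (hsne n (p.ne n ξ hξ)).2
        · rw [hT3 n ζ h1 h2]
          exact h0
    · rw [hT4 n ζ h]
      exact h0
  have hcard : ∀ n, ∀ ζ ∈ p.w, (T n ζ).card ≤ ((trim c N N').S n ζ).card := fun n ζ hζ =>
    Finset.card_le_card (hTsub n ζ hζ)
  let c' : Cond ι := ⟨(trim c N N').a, p.w, T, (trim c N N').inf, p.cnt, hTne, by
      intro n
      refine ((trim c N N').fin n).subset ?_
      rintro ζ ⟨hζ, h⟩
      refine ⟨by rw [← hcw] at hζ; exact hζ, h.trans_le (hcard n ζ hζ)⟩, by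
      intro n hn ζ hζ
      exact (hcard n ζ hζ).trans ((trim c N N').off n hn ζ (by rw [← hcw] at hζ; exact hζ)), by
      intro ζ hζ j
      have hζ' : ζ ∈ (trim c N N').w := by rw [← hcw] at hζ; exact hζ
      by_cases h : ζ = ξ ∨ ζ = η
      · obtain ⟨M', hM'⟩ := p.lg ξ hξ (max j k + 1)
        refine ⟨max (max M' N') (max j k), fun n hn hn' => ?_⟩
        have h1 := hsL n (max j k) (le_max_right _ _) (by omega) (hM' n (hcp.1 hn.1) (by omega))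
        rcases h with h | h
        · subst h
          rw [hT1 n (by omega) hn.1]
          exact h1.1.le (le_max_left _ _)
        · subst h
          rw [hT2 n (by omega) hn.1]
          exact h1.2.1.le (le_max_left _ _)
      · push Not at h
        obtain ⟨M', hM'⟩ := (trim c N N').lg ζ hζ' j
        refine ⟨M', fun n hn hn' => ?_⟩
        rw [hT3 n ζ h.1 h.2]
        exact hM' n hn hn'⟩
  have hc't : LeN N c' (trim c N N') := by
    refine ⟨⟨Set.Subset.rfl, ?_, fun n ζ hζ => hTsub n ζ ?_⟩, fun n _ h => h,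
      fun n hn ζ _ => hT4 n ζ (fun h => by omega), fun n _ ζ hζ hζ' => absurd ?_ hζ'⟩
    · show c.w ⊆ p.w
      rw [hcw]
    · rw [← hcw]; exact hζ
    · show ζ ∈ c.w
      rw [hcw]; exact hζ
  refine ⟨c', hc't.trans ht, rfl, fun n hn hNn a ha b hb => ?_⟩
  have hn' : n ∈ c.a := hn.1
  have hN'n : N' ≤ n := by
    rcases hn.2 with h | h
    · exact absurd h (not_lt.2 hNn)
    · exact h
  have h1 := hsL n k le_rfl (by omega) (hM n (hcp.1 hn') (by omega))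
  have ha' : a ∈ s1 n := by rw [← hT1 n hN'n hn']; exact ha
  have hb' : b ∈ s2 n := by rw [← hT2 n hN'n hn']; exact hb
  exact h1.2.2 a ha' b hb'

/-- the tail of `p` is restored above the level `n` -/
theorem restore (p c c3 : Cond ι) (N n : ℕ) (hc : Tail p N c) (h3 : LeN N c3 c)
    (hw : c3.w = p.w) (hn : N ≤ n) (hn3 : n ∈ c3.a) :
    ∃ c5, LeN N c5 c ∧ Tail p (n + 1) c5 ∧ n ∈ c5.a ∧ (∀ m, N ≤ m → m < n → m ∉ c5.a) ∧
      (∀ m, ∀ ζ ∈ p.w, m < n + 1 → c5.S m ζ ⊆ c3.S m ζ) ∧ ∀ ζ ∈ p.w, c5.S n ζ = c3.S n ζ := by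
  classical
  obtain ⟨hcp, hcw, hct⟩ := hc
  let c4 := trim c3 N n
  have h4 : LeN N c4 c3 := trim_LeN c3 N n
  have h4w : c4.w = p.w := hw
  let S : ℕ → ι → Finset ℕ := fun m ζ => if m < n + 1 then c4.S m ζ else p.S m ζ
  have hS1 : ∀ m ζ, m < n + 1 → S m ζ = c4.S m ζ := fun m ζ h => if_pos h
  have hS2 : ∀ m ζ, n < m → S m ζ = p.S m ζ := fun m ζ h => if_neg (by omega)
  have hmem4 : ∀ {ζ}, ζ ∈ p.w → ζ ∈ c4.w := fun {ζ} h => by rw [h4w]; exact h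
  let c5 : Cond ι := ⟨(c4.a ∩ {m | m < n + 1}) ∪ (p.a ∩ {m | n < m}), p.w, S, by
      refine Set.Infinite.mono Set.subset_union_right ?_
      have h := p.inf.sdiff (Set.finite_le_nat n)
      refine h.mono fun m hm => ⟨hm.1, ?_⟩
      simpa using hm.2, p.cnt, by
      intro m ζ hζ
      by_cases h : m < n + 1
      · rw [hS1 m ζ h]
        exact c4.ne m ζ (hmem4 hζ)
      · rw [hS2 m ζ (by omega)]
        exact p.ne m ζ hζ, by
      intro m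
      by_cases h : m < n + 1
      · refine (c4.fin m).subset ?_
        rintro ζ ⟨hζ, h'⟩
        rw [hS1 m ζ h] at h'
        exact ⟨hmem4 hζ, h'⟩
      · refine (p.fin m).subset ?_
        rintro ζ ⟨hζ, h'⟩
        rw [hS2 m ζ (by omega)] at h'
        exact ⟨hζ, h'⟩, by
      intro m hm ζ hζ
      by_cases h : m < n + 1
      · rw [hS1 m ζ h]
        exact c4.off m (fun h' => hm (Or.inl ⟨h', h⟩)) ζ (hmem4 hζ)
      · rw [hS2 m ζ (by omega)]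
        exact p.off m (fun h' => hm (Or.inr ⟨h', by show n < m; omega⟩)) ζ hζ, by
      intro ζ hζ j
      obtain ⟨M, hM⟩ := p.lg ζ hζ j
      refine ⟨max M (n + 1), fun m hm hm' => ?_⟩
      rw [hS2 m ζ (by omega)]
      rcases hm with h | h
      · have : m < n + 1 := h.2
        omega
      · exact hM m h.1 (by omega)⟩
  have h4c : LeN N c4 c := h4.trans h3
  have hle : c5 ≤ c := by
    refine ⟨?_, by show c.w ⊆ p.w; rw [hcw], fun m ζ hζ => ?_⟩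
    · rintro m (h | h)
      · exact h4c.le.1 h.1
      · exact (hct m (hn.trans (le_of_lt h.2))).1 h.1
    · show S m ζ ⊆ c.S m ζ
      by_cases h : m < n + 1
      · rw [hS1 m ζ h]
        exact h4c.le.2.2 m ζ hζ
      · rw [hS2 m ζ (by omega)]
        rw [hcw] at hζ
        rw [(hct m (by omega)).2 ζ hζ]
  refine ⟨c5, ⟨hle, fun m hm h => Or.inl ⟨h4c.a m hm h, by show m < n + 1; omega⟩,
    fun m hm ζ hζ => ?_, fun m _ ζ hζ hζ' => absurd (by rw [hcw]; exact hζ) hζ'⟩,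
    ⟨hle.trans hcp, rfl, fun m hm => ⟨fun h => Or.inr ⟨h, hm⟩, fun ζ _ => hS2 m ζ hm⟩⟩,
    Or.inl ⟨⟨hn3, Or.inr le_rfl⟩, Nat.lt_succ_self n⟩, ?_, ?_, ?_⟩
  · show S m ζ = _
    rw [hS1 m ζ (by omega)]
    exact h4c.S m hm ζ hζ
  · rintro m hm hm' (h | h)
    · rcases h.1.2 with h' | h'
      · have : m < N := h'
        omega
      · have : n ≤ m := h'
        omega
    · have : n < m := h.2
      omega
  · intro m ζ hζ hm
    show S m ζ ⊆ _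
    rw [hS1 m ζ hm]
    exact h4.le.2.2 m ζ (by rw [hw]; exact hζ)
  · intro ζ hζ
    show S n ζ = _
    rw [hS1 n ζ (Nat.lt_succ_self n)]
    exact trim_S (Or.inr le_rfl) ζ

/-- the diagonal argument: `Dec` is a property of stems of `p` which holds for no stem at almost
no level -/
theorem diagonal (p : Cond ι) (Dec : ℕ → (ℕ → ι → ℕ) → Prop) {ξ η : ι} (hξ : ξ ∈ p.w)
    (hη : η ∈ p.w) (hne : ξ ≠ η) (hS : ∀ n, p.S n ξ = p.S n η)
    (hDec : ∀ s ≤ p, s.w = p.w → ∀ k, (∀ n ∈ s.a, ∀ a ∈ s.S n ξ, ∀ b ∈ s.S n η,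
      a ≠ b ∧ r a b = k) → ∃ s' ≤ s, s'.w = s.w ∧ ∀ n ∈ s'.a, ∀ X, In s' (n + 1) X → ¬ Dec n X) :
    ∃ q ≤ p, (∀ n ∈ q.a, ∀ X, In q (n + 1) X → ¬ Dec n X) ∧
      ∀ k, ∃ N, ∀ n ∈ q.a, N ≤ n → ∀ a ∈ q.S n ξ, ∀ b ∈ q.S n η, a ≠ b ∧ r a b ≠ k := by
  obtain ⟨q, hq, nn, h1, h2, h3⟩ := fusion_steps p (fun N c => Tail p N c)
    ⟨le_rfl, rfl, fun n _ => ⟨fun h => h, fun _ _ => rfl⟩⟩
    (fun i n c => (c ≤ p ∧ ∀ X, In c (n + 1) X → ¬ Dec n X) ∧
      ∀ a ∈ c.S n ξ, ∀ b ∈ c.S n η, a ≠ b ∧ r a b = i) (by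
    intro i N c hc F hF
    obtain ⟨c2, hc2, hc2w, hc2s⟩ := separate p c N i hc hξ hη hne hS
    obtain ⟨c3, hc3, hc3w, hc3D⟩ := step {p.w}
      {s | s ≤ p ∧ ∀ n ∈ s.a, ∀ X, In s (n + 1) X → ¬ Dec n X}
      (fun s hs t ht => ⟨ht.trans hs.1, fun n hn X hX => hs.2 n (ht.1 hn) X (hX.mono ht le_rfl)⟩)
      c2 hc2w N (by
        intro s hs hsw hsN
        obtain ⟨s', h1, h2, h3⟩ := hDec s (hs.trans (hc2.le.trans hc.1)) hsw i
          (fun n hn a ha b hb => hc2s n (hs.1 hn) (hsN n hn) a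
            (hs.2.2 n ξ (by rw [hc2w]; exact hξ) ha) b (hs.2.2 n η (by rw [hc2w]; exact hη) hb))
        exact ⟨s', h1, h2.trans hsw, h1.trans (hs.trans (hc2.le.trans hc.1)), h3⟩)
    have hc3w' : c3.w = p.w := hc3w
    obtain ⟨n, hn, hNn, hL⟩ := exists_level c3 N i F (by
      intro ζ hζ
      rw [hc3w', ← hc.2.1]
      exact hF hζ)
    obtain ⟨c5, h51, h52, h53, h54, h55, h56⟩ := restore p c c3 N n hc (hc3.trans hc2) hc3w hNn hn
    refine ⟨n, c5, hNn, h51, h53, h54, ?_, ⟨⟨h52.1, ?_⟩, ?_⟩, h52⟩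
    · intro ζ hζ
      rw [h56 ζ (by rw [← hc.2.1]; exact hF hζ)]
      exact hL ζ hζ
    · intro X hX
      have hX3 : In c3 (n + 1) X := by
        intro m hm ζ hζ
        rw [hc3w'] at hζ
        exact h55 m ζ hζ hm (hX m hm ζ (by rw [h52.2.1]; exact hζ))
      refine (hc3D X fun m hm => hX3 m (by omega)).2 n ⟨hn, hNn⟩ X ?_
      intro m hm ζ hζ
      by_cases h : m < N
      · rw [fix_S_lt _ _ h]
        exact Finset.mem_singleton_self _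
      · rw [fix_S_ge _ _ (not_lt.1 h)]
        exact hX3 m hm ζ hζ
    · intro a ha b hb
      rw [h56 ξ hξ] at ha
      rw [h56 η hη] at hb
      exact hc2s n (hc3.le.1 hn) hNn a (hc3.le.2.2 n ξ (by rw [hc2w]; exact hξ) ha) b
        (hc3.le.2.2 n η (by rw [hc2w]; exact hη) hb))
  refine ⟨q, hq, ?_, fun k => ⟨nn (k + 1), ?_⟩⟩
  · intro n hn X hX
    obtain ⟨i, rfl⟩ := h2 n hn
    obtain ⟨_, p', hp', hQ, _⟩ := h3 i
    exact hQ.2 X (hX.mono hp'.le le_rfl)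
  · intro n hn hkn a ha b hb
    obtain ⟨i, rfl⟩ := h2 n hn
    obtain ⟨_, p', hp', hQ, hQ'⟩ := h3 i
    have h4 : k + 1 ≤ i := h1.le_iff_le.1 hkn
    have h5 := hQ' a (hp'.le.2.2 _ ξ (hQ.1.2.1 hξ) ha) b (hp'.le.2.2 _ η (hQ.1.2.1 hη) hb)
    exact ⟨h5.1, by rw [h5.2]; omega⟩

/-- the main argument for a matching pair -/
theorem no_rep_pair (g h : ℕ → ℕ → Set (Cond ι)) (C : ℕ → ℕ → Set (Cond ι)) (p : Cond ι)
    (hg : p ∈ IsFun g) (hh : p ∈ IsFun h) {ξ η : ι} (hξ : ξ ∈ p.w) (hη : η ∈ p.w) (hne : ξ ≠ η)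
    (hS : ∀ n, p.S n ξ = p.S n η) (B : ℕ → ℕ) (hB : ∀ n ∈ p.a, ∀ X, In p (n + 1) X →
      (∃ i ≤ B n, fix p (n + 1) X ∈ meets (g n i)) ∧
      (∃ i ≤ B n, fix p (n + 1) X ∈ meets (h n i)) ∧ ∀ i ≤ B n, ∀ j ≤ B n,
        fix p (n + 1) X ∈ meets (C i j) ∨ fix p (n + 1) X ∈ fnot (meets (C i j)))
    (hiff : p ∈ fiff (NoColour UU r (xx ξ) (xx η)) (Rel UU C g h)) : False := by
  set DD : ℕ → Set (Cond ι) := fun n => fex fun i : ℕ => fex fun j : ℕ =>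
    fand (fand (meets (g n i)) (meets (h n j))) (meets (C i j)) with hDD
  set EE : ℕ → ℕ → Set (Cond ι) := fun k n => fex fun i : ℕ => fex fun j : ℕ =>
    fand (fand (meets (xx ξ n i)) (meets (xx η n j))) (fground (i ≠ j ∧ r i j = k)) with hEE
  have hdDD : ∀ n, Down (DD n) := fun n => down_fex _
  have hdEE : ∀ k n, Down (EE k n) := fun k n => down_fex _
  have hrel : Rel UU C g h = Mem UU DD := rfl
  have heq : NoColour UU r (xx ξ) (xx η) = fall fun k => fnot (Mem UU (EE k)) := rfl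
  -- the stems decide the relation
  have hdec : ∀ n ∈ p.a, ∀ X, In p (n + 1) X → fix p (n + 1) X ∉ DD n →
      fix p (n + 1) X ∈ fnot (DD n) := by
    intro n hn X hX hX'
    obtain ⟨⟨i, hi, hi'⟩, ⟨j, hj, hj'⟩, hC⟩ := hB n hn X hX
    have hle : fix p (n + 1) X ≤ p := fix_le hX
    rcases hC i hi j hj with h1 | h1
    · refine absurd ?_ hX'
      have h2 : Down (fand (fand (meets (g n i)) (meets (h n j))) (meets (C i j))) :=
        down_fand (down_fand (down_meets _) (down_meets _)) (down_meets _)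
      exact mem_fex_of_mem i (down_fex _) (mem_fex_of_mem j h2 ⟨⟨hi', hj'⟩, h1⟩)
    · intro s hs hsD
      obtain ⟨s1, hs1, i', hs1'⟩ := mem_fex.1 hsD s le_rfl
      obtain ⟨s2, hs2, j', ⟨h3, h4⟩, h5⟩ := mem_fex.1 hs1' s1 le_rfl
      have hs2X : s2 ≤ fix p (n + 1) X := hs2.trans (hs1.trans hs)
      have e1 : i' = i := IsFun.unique (down_IsFun _ _ hg _ (hs2X.trans hle)) h3
        (down_meets _ _ hi' _ hs2X)
      have e2 : j' = j := IsFun.unique (down_IsFun _ _ hh _ (hs2X.trans hle)) h4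
        (down_meets _ _ hj' _ hs2X)
      subst e1 e2
      exact h1 s2 hs2X h5
  obtain ⟨q, hq, hqD, hqr⟩ := diagonal p (fun n X => fix p (n + 1) X ∈ DD n) hξ hη hne hS (by
    intro s hs hsw k hk
    obtain ⟨s', h1, h2, h3 | h3⟩ := ramsey s (fun n X => fix p (n + 1) X ∈ DD n)
      (fun n X X' hXX' hX => hdDD n _ hX _ (fix_congr fun m hm ζ hζ =>
        (hXX' m hm ζ (by rw [hsw]; exact hζ)).symm))
    · exfalso
      have hs'p : s' ≤ p := h1.trans hs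
      -- the relation is forced
      have h4 : s' ∈ Mem UU DD := by
        refine mem_UU.2 fun t ht => ⟨t, le_rfl, fun n hn => ?_⟩
        refine down_meets _ _ (meets_of_stems (n + 1) fun X hX => ?_) _ ht
        exact meets_of_mem (hdDD n _ (h3 n (ht.1 hn) X hX) _ (fix_mono hs'p))
      obtain ⟨t, ht, htE⟩ := mem_fimp.1 hiff.2 s' hs'p h4
      -- but the pair is separated
      refine htE k t le_rfl (mem_UU.2 fun u hu => ⟨u, le_rfl, fun n hn => ?_⟩)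
      have hut : u ≤ s := hu.trans (ht.trans h1)
      refine meets_of_stems (n + 1) fun X hX => meets_of_mem ?_
      have hξu : ξ ∈ u.w := hut.2.1 (by rw [hsw]; exact hξ)
      have hηu : η ∈ u.w := hut.2.1 (by rw [hsw]; exact hη)
      have h5 := hk n (hut.1 hn) (X n ξ) (hut.2.2 n ξ (by rw [hsw]; exact hξ)
        (hX n (Nat.lt_succ_self n) ξ hξu)) (X n η) (hut.2.2 n η (by rw [hsw]; exact hη)
        (hX n (Nat.lt_succ_self n) η hηu))
      have hd2 : Down (fand (fand (meets (xx ξ n (X n ξ))) (meets (xx η n (X n η))))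
          (fground (P := Cond ι) (X n ξ ≠ X n η ∧ r (X n ξ) (X n η) = k))) :=
        down_fand (down_fand (down_meets _) (down_meets _)) (down_fground _)
      exact mem_fex_of_mem (X n ξ) (down_fex _) (mem_fex_of_mem (X n η) hd2
        ⟨⟨meets_of_mem (fix_mem_xx hξu (Nat.lt_succ_self n) X),
          meets_of_mem (fix_mem_xx hηu (Nat.lt_succ_self n) X)⟩, h5⟩)
    · exact ⟨s', h1, h2, h3⟩)
  -- `q` forces that the pair is not separated
  have hqE : q ∈ NoColour UU r (xx ξ) (xx η) := by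
    intro k s hs hsE
    obtain ⟨t, ht, htE⟩ := mem_UU.1 hsE s le_rfl
    obtain ⟨N, hN⟩ := hqr k
    obtain ⟨n, hn, hNn⟩ := t.inf.exists_gt N
    obtain ⟨u, hu, huE⟩ := exists_of_meets (hdEE k n) (htE n hn)
    obtain ⟨v, hv, i, hvi⟩ := mem_fex.1 huE u le_rfl
    obtain ⟨w, hw, j, ⟨h3, h4⟩, h5⟩ := mem_fex.1 hvi v le_rfl
    have htq : t ≤ q := ht.trans hs
    have hwq : w ≤ q := hw.trans (hv.trans (hu.trans htq))
    have hξw : ξ ∈ w.w := hwq.2.1 (hq.2.1 hξ)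
    have hηw : η ∈ w.w := hwq.2.1 (hq.2.1 hη)
    have h6 := hN n (htq.1 hn) hNn.le i (hwq.2.2 n ξ (hq.2.1 hξ) (mem_S_of_meets hξw h3)) j
      (hwq.2.2 n η (hq.2.1 hη) (mem_S_of_meets hηw h4))
    have h7 : i ≠ j ∧ r i j = k := h5
    exact h6.2 h7.2
  obtain ⟨s, hs, hsR⟩ := mem_fimp.1 hiff.1 q hq hqE
  obtain ⟨t, ht, htD⟩ := mem_UU.1 hsR s le_rfl
  obtain ⟨n, hn⟩ := t.inf.nonempty
  obtain ⟨u, hu, huD⟩ := exists_of_meets (hdDD n) (htD n hn)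
  have huq : u ≤ q := hu.trans (ht.trans hs)
  obtain ⟨X, hX, h3, h4⟩ := exists_stem (huq.trans hq) (n + 1)
  have hXq : In q (n + 1) X := hX.mono huq le_rfl
  have hnq : n ∈ q.a := (ht.trans hs).1 hn
  exact hdec n (hq.1 hnq) X (hXq.mono hq le_rfl) (hqD n hnq X hXq) _ h4 (hdDD n _ huD _ h3)

open Cardinal in
theorem no_rep (hι : continuum.{0} < #ι) (g : ι → ℕ → ℕ → Set (Cond ι))
    (C : ℕ → ℕ → Set (Cond ι)) (p0 : Cond ι) (hg : ∀ ξ, p0 ∈ IsFun (g ξ))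
    (hiff : ∀ ξ η, p0 ∈ fiff (NoColour UU r (xx ξ) (xx η)) (Rel UU C (g ξ) (g η))) : False := by
  choose pp hpp hξ B hB using fun ξ => read (g ξ) C p0 (hg ξ) ξ
  have hen : ∀ ξ, ∃ e : ℕ → ι, e 0 = ξ ∧ ∀ ζ, ζ ∈ (pp ξ).w ↔ ∃ i, e i = ζ := by
    intro ξ
    obtain ⟨f, hf⟩ := (pp ξ).cnt.exists_eq_range ⟨ξ, hξ ξ⟩
    refine ⟨fun n => Nat.casesOn n ξ f, rfl, fun ζ => ⟨fun hζ => ?_, ?_⟩⟩
    · rw [hf] at hζ
      obtain ⟨i, rfl⟩ := hζ
      exact ⟨i + 1, rfl⟩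
    · rintro ⟨_ | i, rfl⟩
      · exact hξ ξ
      · rw [hf]
        exact ⟨i, rfl⟩
  choose e he0 he using hen
  obtain ⟨ξ, η, hne, hd, hee⟩ := pair (Dt := Set ℕ × (ℕ → ℕ) × (ℕ → ℕ → Finset ℕ)) hι (by
    simp) (fun ξ => ((pp ξ).a, B ξ, fun n i => (pp ξ).S n (e ξ i))) e
  obtain ⟨ha, hBB, hSS⟩ : (pp ξ).a = (pp η).a ∧ B ξ = B η ∧
      (fun n i => (pp ξ).S n (e ξ i)) = fun n i => (pp η).S n (e η i) := by
    simpa only [Prod.mk.injEq] using hd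
  have hSS' : ∀ n i, (pp ξ).S n (e ξ i) = (pp η).S n (e η i) := fun n i =>
    congrFun (congrFun hSS n) i
  obtain ⟨p, hp1, hp2, hp3⟩ := amalg (pp ξ) (pp η) ha (by
    intro n ζ h1 h2
    obtain ⟨i, rfl⟩ := (he ξ ζ).1 h1
    obtain ⟨j, hj⟩ := (he η _).1 h2
    rw [hSS' n i, ← hj]
    congr 1
    exact hee i j hj.symm)
  refine no_rep_pair (g ξ) (g η) C p (down_IsFun _ _ (hg ξ) _ (hp1.trans (hpp ξ)))
    (down_IsFun _ _ (hg η) _ (hp1.trans (hpp ξ))) (hp1.2.1 (hξ ξ)) (hp2.2.1 (hξ η)) hne ?_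
    (B ξ) ?_ ?_
  · intro n
    rw [(hp3 n ξ).1 (hξ ξ), (hp3 n η).2.1 (hξ η)]
    have := hSS' n 0
    rwa [he0, he0] at this
  · intro n hn X hX
    have h1 := hB ξ n (hp1.1 hn) X (hX.mono hp1 le_rfl)
    have h2 := hB η n (hp2.1 hn) X (hX.mono hp2 le_rfl)
    obtain ⟨i, hi, hi'⟩ := h1.1
    obtain ⟨j, hj, hj'⟩ := h2.1
    refine ⟨⟨i, hi, down_meets _ _ hi' _ (fix_mono hp1)⟩,
      ⟨j, by rw [hBB]; exact hj, down_meets _ _ hj' _ (fix_mono hp2)⟩, fun i hi j hj => ?_⟩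
    exact (h1.2 i hi j hj).imp (fun h => down_meets _ _ h _ (fix_mono hp1))
      fun h => down_fnot _ _ h _ (fix_mono hp1)
  · have := hiff ξ η
    exact ⟨down_fimp _ _ _ this.1 _ (hp1.trans (hpp ξ)), down_fimp _ _ _ this.2 _ (hp1.trans (hpp ξ))⟩

/-- there is a condition -/
theorem exists_cond : Nonempty (Cond ι) :=
  ⟨⟨Set.univ, ∅, fun _ _ => ∅, Set.infinite_univ, Set.countable_empty, fun _ _ h => h.elim,
    fun _ => by simp, fun _ _ _ h => h.elim, fun _ h => h.elim⟩⟩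

/-- The forcing notion forces that the generic functions are not represented. -/
theorem unrep (hι : Cardinal.continuum.{0} < Cardinal.mk ι) (p : Cond ι) :
    p ∈ Unrep (Cond ι) ι r := by
  have h : ∀ q : Cond ι, q ∈ (fand (fand (IsUltra UU) (fall fun ξ => IsFun (xx ξ)))
      (fall fun g : ι → ℕ → ℕ → Set (Cond ι) => fall fun C : ℕ → ℕ → Set (Cond ι) =>
        fimp (fall fun ξ => IsFun (g ξ))
          (fnot (fall fun ξ => fall fun η =>
            fiff (NoColour UU r (xx ξ) (xx η)) (Rel UU C (g ξ) (g η)))))) := by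
    intro q
    refine ⟨⟨isUltra_UU q, fun ξ => isFun_xx ξ q⟩, fun g C => mem_fimp.2 fun s _ hs => ?_⟩
    exact ⟨s, le_rfl, fun t ht htE => no_rep hι g C t (fun ξ => down_IsFun _ _ (hs ξ) _ ht) htE⟩
  refine mem_fex.2 fun q _ => ⟨q, le_rfl, UU, mem_fex.2 fun s _ => ⟨s, le_rfl, xx, h s⟩⟩

end Pool.Agent.K7.H48.UF
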