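import Pool.Agent.K7.H48.UF.Ram
import Pool.Agent.K7.H48.UF.Names

/-!
# The generic ultrafilter and the generic functions
-/

set_option autoImplicit false

namespace Pool.Agent.K7.H48.UF

open Pool.Agent.Helper669.Forcing

variable {ι : Type}

/-- the name of the generic ultrafilter -/
def UU : (ℕ → Set (Cond ι)) → Set (Cond ι) := fun A => {p | ∀ n ∈ p.a, p ∈ meets (A n)}

theorem down_UU (A : ℕ → Set (Cond ι)) : Down (UU A) :=
  fun _ hp _ hq n hn => down_meets _ _ (hp n (hq.1 hn)) _ hq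

theorem mem_UU {A : ℕ → Set (Cond ι)} {p : Cond ι} :
    p ∈ Mem UU A ↔ ∀ q ≤ p, ∃ r ≤ q, r ∈ UU A :=
  mem_Mem down_UU fun _ _ _ hA hAB n hn => meets_of_fimp (hAB n).1 (hA n hn)

/-- a statement forced by all stems is forced -/
theorem meets_of_stems {N : Set (Cond ι)} {p : Cond ι} (m : ℕ)
    (h : ∀ X, In p m X → fix p m X ∈ meets N) : p ∈ meets N := by
  refine meets_of_dense fun r hr => ?_
  obtain ⟨X, hX, h1, h2⟩ := exists_stem hr m
  exact ⟨_, h1, down_meets _ _ (h X (hX.mono hr le_rfl)) _ h2⟩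

/-- the key property of the generic ultrafilter -/
theorem ult_key (A : ℕ → Set (Cond ι)) (p : Cond ι) :
    ∃ q ≤ p, q ∈ UU A ∨ q ∈ UU fun n => fnot (meets (A n)) := by
  obtain ⟨q1, hq1, h1⟩ := master (fun n => {r | r ∈ meets (A n) ∨ r ∈ fnot (meets (A n))})
    (fun n r hr s hs => hr.imp (fun h => down_meets _ _ h _ hs) fun h => down_fnot _ _ h _ hs) p
    (fun n r _ => by
      by_cases h : ∃ r' ≤ r, r' ∈ meets (A n)
      · obtain ⟨r', h1, h2⟩ := h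
        exact ⟨r', h1, Or.inl h2⟩
      · push Not at h
        exact ⟨r, le_rfl, Or.inr h⟩)
  obtain ⟨q2, hq2, _, h2⟩ := ramsey q1 (fun n X => fix q1 (n + 1) X ∈ meets (A n))
    (fun n X X' hXX' hX => down_meets _ _ hX _ (fix_congr fun m hm ζ hζ => (hXX' m hm ζ hζ).symm))
  refine ⟨q2, hq2.trans hq1, h2.imp ?_ ?_⟩
  · intro h n hn
    refine meets_of_stems (n + 1) fun X hX => down_meets _ _ (h n hn X hX) _ (fix_mono hq2)
  · intro h n hn
    refine meets_of_stems (n + 1) fun X hX => meets_of_mem ?_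
    rcases h1 n (hq2.1 hn) X (hX.mono hq2 le_rfl) with h' | h'
    · exact absurd h' (h n hn X hX)
    · exact down_fnot _ _ h' _ (fix_mono hq2)

theorem isUltra_UU (p : Cond ι) : p ∈ IsUltra (UU (ι := ι)) := by
  refine ⟨fun A B => mem_fimp.2 ?_, fun A B => mem_fimp.2 ?_, fun A => ⟨mem_fimp.2 ?_,
    mem_fimp.2 ?_⟩, fun m => ?_⟩
  · rintro q hq ⟨hA, hAB⟩
    refine ⟨q, le_rfl, mem_UU.2 fun q' hq' => ?_⟩
    obtain ⟨r, hr, hrA⟩ := mem_UU.1 hA q' hq'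
    exact ⟨r, hr, fun n hn => meets_of_fimp (down_fimp _ _ _ (hAB n) _ (hr.trans hq')) (hrA n hn)⟩
  · rintro q hq ⟨hA, hB⟩
    refine ⟨q, le_rfl, mem_UU.2 fun q' hq' => ?_⟩
    obtain ⟨r, hr, hrA⟩ := mem_UU.1 hA q' hq'
    obtain ⟨s, hs, hsB⟩ := mem_UU.1 hB r (hr.trans hq')
    exact ⟨s, hs.trans hr, fun n hn => meets_of_mem ⟨down_UU A _ hrA _ hs n hn, hsB n hn⟩⟩
  · intro q hq hA
    refine ⟨q, le_rfl, fun r hr hrA => ?_⟩
    obtain ⟨s, hs, hsA⟩ := mem_UU.1 hA r hr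
    obtain ⟨t, ht, htA⟩ := mem_UU.1 hrA s hs
    obtain ⟨n, hn⟩ := t.inf.nonempty
    obtain ⟨t', ht', htn⟩ := exists_of_meets (down_fnot _) (down_UU _ _ hsA _ ht n hn)
    exact htn t' le_rfl (down_meets _ _ (htA n hn) _ ht')
  · intro q hq hA
    refine ⟨q, le_rfl, mem_UU.2 fun q' hq' => ?_⟩
    obtain ⟨r, hr, h | h⟩ := ult_key A q'
    · exact absurd (mem_UU.2 fun s hs => ⟨s, le_rfl, down_UU A _ h _ hs⟩) (hA r (hr.trans hq'))
    · exact ⟨r, hr, h⟩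
  · refine mem_UU.2 fun q _ => ⟨trim q 0 (m + 1), (trim_LeN q 0 (m + 1)).le, fun n hn => ?_⟩
    refine meets_of_mem ?_
    rcases hn.2 with h | h
    · exact absurd h (Nat.not_lt_zero _)
    · exact h

/-- the name of the generic function with index `ζ` -/
def xx (ζ : ι) (n i : ℕ) : Set (Cond ι) := {p | ζ ∈ p.w ∧ p.S n ζ ⊆ {i}}

theorem down_xx (ζ : ι) (n i : ℕ) : Down (xx ζ n i) :=
  fun _ hp _ hq => ⟨hq.2.1 hp.1, (hq.2.2 n ζ hp.1).trans hp.2⟩

theorem mem_S_of_meets {ζ : ι} {n i : ℕ} {p : Cond ι} (hζ : ζ ∈ p.w) (h : p ∈ meets (xx ζ n i)) :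
    i ∈ p.S n ζ := by
  obtain ⟨q, hq, hqi⟩ := exists_of_meets (down_xx ζ n i) h
  obtain ⟨b, hb⟩ := q.ne n ζ hqi.1
  have h1 : b = i := Finset.mem_singleton.1 (hqi.2 hb)
  rw [← h1]
  exact hq.2.2 n ζ hζ hb

theorem fix_mem_xx {ζ : ι} {n m : ℕ} {p : Cond ι} (hζ : ζ ∈ p.w) (hn : n < m) (X : ℕ → ι → ℕ) :
    fix p m X ∈ xx ζ n (X n ζ) :=
  ⟨hζ, by rw [fix_S_lt _ _ hn]⟩

/-- adding a coordinate -/
theorem exists_add (p : Cond ι) (ζ : ι) : ∃ q ≤ p, ζ ∈ q.w := by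
  classical
  by_cases hζ : ζ ∈ p.w
  · exact ⟨p, le_rfl, hζ⟩
  choose T hT using exists_large
  refine ⟨⟨p.a, insert ζ p.w, fun n η => if η = ζ then (if n ∈ p.a then T n else {0}) else p.S n η,
    p.inf, p.cnt.insert ζ, ?_, ?_, ?_, ?_⟩,
    ⟨Set.Subset.rfl, Set.subset_insert _ _, fun n η hη => ?_⟩, Set.mem_insert _ _⟩
  · intro n η hη
    split_ifs with h1 h2
    · exact (hT n).nonempty
    · exact Finset.singleton_nonempty _
    · exact p.ne n η (hη.resolve_left h1)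
  · intro n
    refine ((p.fin n).insert ζ).subset ?_
    rintro η ⟨hη, h⟩
    by_cases h1 : η = ζ
    · exact Or.inl h1
    · rw [if_neg h1] at h
      exact Or.inr ⟨hη.resolve_left h1, h⟩
  · intro n hn η hη
    rw [if_neg hn]
    split_ifs with h1
    · simp
    · exact p.off n hn η (hη.resolve_left h1)
  · intro η hη j
    by_cases h1 : η = ζ
    · refine ⟨j, fun n hn hj => ?_⟩
      rw [if_pos h1, if_pos hn]
      exact (hT n).le hj
    · obtain ⟨M, hM⟩ := p.lg η (hη.resolve_left h1) j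
      refine ⟨M, fun n hn hj => ?_⟩
      rw [if_neg h1]
      exact hM n hn hj
  · have h1 : η ≠ ζ := fun h => hζ (h ▸ hη)
    show (if η = ζ then (if n ∈ p.a then T n else {0}) else p.S n η) ⊆ p.S n η
    rw [if_neg h1]

theorem isFun_xx (ζ : ι) (p : Cond ι) : p ∈ IsFun (xx ζ) := by
  refine ⟨fun n => mem_fex.2 fun q _ => ?_, fun n i j => mem_fimp.2 ?_⟩
  · obtain ⟨r, hr, hζ⟩ := exists_add q ζ
    exact ⟨fix r (n + 1) (ch r), (fix_le (In_ch r _)).trans hr, _,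
      meets_of_mem (fix_mem_xx hζ (Nat.lt_succ_self n) (ch r))⟩
  · rintro q _ ⟨h1, h2⟩
    obtain ⟨r, hr, hr1⟩ := exists_of_meets (down_xx ζ n i) h1
    obtain ⟨s, hs, hs2⟩ := exists_of_meets (down_xx ζ n j) (down_meets _ _ h2 _ hr)
    have hs1 := down_xx ζ n i _ hr1 _ hs
    obtain ⟨b, hb⟩ := s.ne n ζ hs1.1
    refine ⟨s, hs.trans hr, ?_⟩
    show i = j
    rw [← Finset.mem_singleton.1 (hs1.2 hb), Finset.mem_singleton.1 (hs2.2 hb)]

end Pool.Agent.K7.H48.UF
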